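import Pool.Agent.L5helper76.SB.Barrier

/-!
The flux is controlled by the shell just above the cut.
-/

open MeasureTheory Set Filter Topology
open scoped ContDiff

namespace Pool.Agent.L5helper76.SB

open H459R3.NS H459R3.EU

theorem eq_lw {f : V → ℝ} (hf : SP f) {n : ℕ} (h : ∀ k, n < N k → fr f k = 0) : lw n f = f := by
  refine sp_ext (sp_lw n f) hf fun k => ?_
  rw [fr_lw]
  split_ifs with hk
  · rfl
  · exact (h k (by omega)).symm

theorem N_sub_gt {n : ℕ} {k a : K3} (hk : 2 * n < N k) (ha : N a ≤ n) : n < N (k - a) := by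
  by_contra h
  push Not at h
  rw [N_le_iff] at h ha
  have : N k ≤ 2 * n := by
    rw [N_le_iff]
    intro j
    have h1 := abs_le.1 (h j)
    have h2 := abs_le.1 (ha j)
    have e : (k - a) j = k j - a j := rfl
    rw [e] at h1
    rw [abs_le]
    push_cast
    constructor <;> linarith [h1.1, h1.2, h2.1, h2.2]
  omega

theorem fr_mul_supp {f g : V → ℝ} (hf : SP f) (hg' : SP g) {n : ℕ}
    (h1 : ∀ k, n < N k → fr f k = 0) (h2 : ∀ k, n < N k → fr g k = 0) (k : K3)
    (hk : 2 * n < N k) : fr (fun x => f x * g x) k = 0 := by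
  have e : fr (fun x => f x * g x) k = ∑ a ∈ bx n, fr f a * fr g (k - a) := by
    have e1 : ∀ x, ee (-k) x * ((f x * g x : ℝ) : ℂ)
        = ∑ a ∈ bx n, fr f a * (ee (-(k - a)) x * (g x : ℂ)) := by
      intro x
      have : ((f x : ℝ) : ℂ) = ∑ a ∈ bx n, fr f a * ee a x := by
        rw [← lw_ofReal, eq_lw hf h1]
      rw [Complex.ofReal_mul, this, Finset.sum_mul, Finset.mul_sum]
      refine Finset.sum_congr rfl fun a _ => ?_
      have e2 : ee (-(k - a)) x = ee (-k) x * ee a x := by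
        rw [← ee_add_left]
        congr 1
        abel
      rw [e2]
      ring
    have e3 : fr (fun x => f x * g x) k
        = ∫ x in cube, ee (-k) x * ((f x * g x : ℝ) : ℂ) := rfl
    rw [e3]
    simp_rw [e1]
    rw [integral_finsetSum]
    · refine Finset.sum_congr rfl fun a _ => ?_
      rw [integral_const_mul]
      rfl
    · intro a _
      exact integrableOn_cube (continuous_const.mul ((ee_continuous _).mul
        (contDiff_ofReal hg'.smooth).continuous))
  rw [e]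
  refine Finset.sum_eq_zero fun a ha => ?_
  rw [h2 _ (N_sub_gt hk (mem_bx.1 ha)), mul_zero]

/-- the `L²` norm of the frequencies in the shell `n < |k| ≤ 2n` -/
noncomputable def shell (n : ℕ) (v : Fin 3 → V → ℝ) : ℝ :=
  Real.sqrt (∑ l, ∑ k ∈ bx (2 * n) \ bx n, ‖fr (v l) k‖ ^ 2)

theorem shell_nonneg (n : ℕ) (v : Fin 3 → V → ℝ) : 0 ≤ shell n v := Real.sqrt_nonneg _

theorem nrm_md_le {v : Fin 3 → V → ℝ} (hv : ∀ i, SP (v i)) (n : ℕ) (l : Fin 3) :
    nrm (lw (2 * n) (hi n v l)) ≤ shell n v := by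
  unfold nrm shell
  refine Real.sqrt_le_sqrt ?_
  rw [int_lw_sq (2 * n) (sp_hi hv n l)]
  have e : ∀ k, (fr (hi n v l) k).re ^ 2 + (fr (hi n v l) k).im ^ 2
      = if N k ≤ n then 0 else ‖fr (v l) k‖ ^ 2 := by
    intro k
    have : fr (hi n v l) k = if N k ≤ n then 0 else fr (v l) k := fr_hg n (hv l) k
    rw [this]
    split_ifs
    · simp
    · rw [← Complex.normSq_eq_norm_sq, Complex.normSq_apply]
      ring
  simp_rw [e]
  have e2 : ∑ k ∈ bx (2 * n), (if N k ≤ n then 0 else ‖fr (v l) k‖ ^ 2)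
      = ∑ k ∈ bx (2 * n) \ bx n, ‖fr (v l) k‖ ^ 2 := by
    symm
    calc ∑ k ∈ bx (2 * n) \ bx n, ‖fr (v l) k‖ ^ 2
        = ∑ k ∈ bx (2 * n) \ bx n, (if N k ≤ n then 0 else ‖fr (v l) k‖ ^ 2) := by
          refine Finset.sum_congr rfl fun k hk => ?_
          rw [Finset.mem_sdiff, mem_bx, mem_bx] at hk
          rw [if_neg hk.2]
      _ = _ := by
          refine Finset.sum_subset Finset.sdiff_subset fun k hk hk' => ?_
          have : N k ≤ n := by
            by_contra hc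
            exact hk' (Finset.mem_sdiff.2 ⟨hk, fun h => hc (mem_bx.1 h)⟩)
          rw [if_pos this]
  rw [e2]
  exact Finset.single_le_sum (f := fun l => ∑ k ∈ bx (2 * n) \ bx n, ‖fr (v l) k‖ ^ 2)
    (fun _ _ => Finset.sum_nonneg fun _ _ => by positivity) (Finset.mem_univ l)

theorem a5 (n : ℕ) : (63 / 10 * ((2 * n : ℕ) : ℝ)) ^ 3 = (63 / 5) ^ 3 * (n : ℝ) ^ 3 := by
  push_cast
  ring

theorem abs_fl_le {v : Fin 3 → V → ℝ} (hv : ∀ i, SP (v i)) {E : ℝ} (hE : ∀ i, nrm (v i) ≤ E)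
    (n : ℕ) : |fl n v| ≤ 10 ^ 11 * (E ^ 2 * ((n : ℝ) ^ 6 * G n) * shell n v) := by
  have hE0 : 0 ≤ E := (nrm_nonneg _).trans (hE 0)
  have hG := G_nonneg n
  have hS := shell_nonneg n v
  have hn : (0 : ℝ) ≤ n := Nat.cast_nonneg n
  set F : Fin 3 → V → ℝ := cv (lo n v) (lo n v) with hF
  have sF : ∀ l, SP (F l) := sp_cv (sp_lo n v) (sp_lo n v)
  have suppF : ∀ l k, 2 * n < N k → fr (F l) k = 0 := by
    intro l k hk
    have : F l = fun x => ∑ m, lo n v m x * pd m (lo n v l) x := rfl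
    rw [this, fr_sum fun m _ => (sp_lo n v m).mul ((sp_lo n v l).pd m)]
    refine Finset.sum_eq_zero fun m _ => ?_
    exact fr_mul_supp (sp_lo n v m) ((sp_lo n v l).pd m) (lw_supp n (v m))
      (pd_supp (sp_lo n v l) (lw_supp n (v l)) m) k hk
  have nF : ∀ l, nrm (F l) ≤ 99 * (G n * E ^ 2) := by
    intro l
    have h1 : ∀ m, nrm (fun x => lo n v m x * pd m (lo n v l) x)
        ≤ Real.sqrt ((2 * n + 1) ^ 3) * E * (63 / 10 * n * E) := by
      intro m
      refine (nrm_mul_le (sp_lo n v m).cont ((sp_lo n v l).pd m).cont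
        (b := Real.sqrt ((2 * n + 1) ^ 3) * E) fun x => ?_).trans ?_
      · refine (sup_low (sp_lo n v m) (lw_supp n (v m)) x).trans ?_
        exact mul_le_mul_of_nonneg_left ((nrm_lw_le n (hv m)).trans (hE m)) (Real.sqrt_nonneg _)
      · refine mul_le_mul_of_nonneg_left ?_ (mul_nonneg (Real.sqrt_nonneg _) hE0)
        refine (nrm_low_pd n (hv l) m).trans ?_
        exact mul_le_mul_of_nonneg_left (hE l) (by positivity)
    have h2 : nrm (F l) ≤ ∑ m : Fin 3, Real.sqrt ((2 * n + 1) ^ 3) * E * (63 / 10 * n * E) := by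
      have : F l = fun x => ∑ m, lo n v m x * pd m (lo n v l) x := rfl
      rw [this]
      exact (nrm_sum_le fun m => ((sp_lo n v m).mul ((sp_lo n v l).pd m)).cont).trans
        (Finset.sum_le_sum fun m _ => h1 m)
    refine h2.trans ?_
    rw [Finset.sum_const, Finset.card_univ, Fintype.card_fin, nsmul_eq_mul]
    have h3 := a1 n
    have h4 : 0 ≤ E ^ 2 := by positivity
    calc ((3 : ℕ) : ℝ) * (Real.sqrt ((2 * n + 1) ^ 3) * E * (63 / 10 * n * E))
        = 189 / 10 * ((n : ℝ) * Real.sqrt ((2 * n + 1) ^ 3)) * E ^ 2 := by push_cast; ring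
      _ ≤ 189 / 10 * (26 / 5 * G n) * E ^ 2 := by gcongr
      _ ≤ 99 * (G n * E ^ 2) := by nlinarith [mul_nonneg hG h4]
  set md : Fin 3 → V → ℝ := fun l => lw (2 * n) (hi n v l) with hmd
  have smd : ∀ l, SP (md l) := fun l => sp_lw _ _
  have nmd : ∀ l, nrm (md l) ≤ shell n v := nrm_md_le hv n
  have hterm : ∀ l i j k, |∫ x in cube, d3 i j k (F l) x * d3 i j k (hi n v l) x|
      ≤ 402 * 10 ^ 6 * (E ^ 2 * ((n : ℝ) ^ 6 * G n) * shell n v) := by
    intro l i j k
    have e : ∫ x in cube, d3 i j k (F l) x * d3 i j k (hi n v l) x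
        = ∫ x in cube, d3 i j k (F l) x * d3 i j k (md l) x := by
      have e1 : d3 i j k (F l) = lw (2 * n) (d3 i j k (F l)) :=
        (eq_lw (sp_d3 (sF l) i j k) (d3_supp (sF l) (suppF l) i j k)).symm
      have e2 : d3 i j k (md l) = lw (2 * n) (d3 i j k (hi n v l)) := d3_lw _ (sp_hi hv n l) i j k
      rw [e2, e1]
      exact int_lw_mul _ (sp_d3 (sF l) i j k) (sp_d3 (sp_hi hv n l) i j k)
    rw [e]
    refine (abs_int_mul_le (sp_d3 (sF l) i j k).cont (sp_d3 (smd l) i j k).cont).trans ?_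
    have h1 := nrm_d3_le (sF l) (suppF l) i j k
    have h2 := nrm_d3_le (smd l) (lw_supp (2 * n) (hi n v l)) i j k
    rw [a5] at h1 h2
    have h3 : nrm (d3 i j k (F l)) ≤ (63 / 5) ^ 3 * (n : ℝ) ^ 3 * (99 * (G n * E ^ 2)) :=
      h1.trans (mul_le_mul_of_nonneg_left (nF l) (by positivity))
    have h4 : nrm (d3 i j k (md l)) ≤ (63 / 5) ^ 3 * (n : ℝ) ^ 3 * shell n v :=
      h2.trans (mul_le_mul_of_nonneg_left (nmd l) (by positivity))
    calc nrm (d3 i j k (F l)) * nrm (d3 i j k (md l))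
        ≤ ((63 / 5) ^ 3 * (n : ℝ) ^ 3 * (99 * (G n * E ^ 2)))
          * ((63 / 5) ^ 3 * (n : ℝ) ^ 3 * shell n v) :=
          mul_le_mul h3 h4 (nrm_nonneg _) (by positivity)
      _ = (99 * (63 / 5) ^ 6) * (E ^ 2 * ((n : ℝ) ^ 6 * G n) * shell n v) := by ring
      _ ≤ 402 * 10 ^ 6 * (E ^ 2 * ((n : ℝ) ^ 6 * G n) * shell n v) := by
        refine mul_le_mul_of_nonneg_right (by norm_num) (by positivity)
  have hQ : |Q3 F (hi n v)| ≤ ∑ _l : Fin 3, ∑ _i : Fin 3, ∑ _j : Fin 3, ∑ _k : Fin 3,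
      402 * 10 ^ 6 * (E ^ 2 * ((n : ℝ) ^ 6 * G n) * shell n v) := by
    unfold Q3
    refine (Finset.abs_sum_le_sum_abs _ _).trans (Finset.sum_le_sum fun l _ => ?_)
    refine (Finset.abs_sum_le_sum_abs _ _).trans (Finset.sum_le_sum fun i _ => ?_)
    refine (Finset.abs_sum_le_sum_abs _ _).trans (Finset.sum_le_sum fun j _ => ?_)
    exact (Finset.abs_sum_le_sum_abs _ _).trans (Finset.sum_le_sum fun k _ => hterm l i j k)
  simp only [Finset.sum_const, Finset.card_univ, Fintype.card_fin, nsmul_eq_mul] at hQ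
  push_cast at hQ
  have h0 : 0 ≤ E ^ 2 * ((n : ℝ) ^ 6 * G n) * shell n v := by positivity
  unfold fl
  rw [abs_mul, abs_neg, abs_two, ← hF]
  linarith

end Pool.Agent.L5helper76.SB
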