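import Pool.Agent.L5helper76.SB.Time

/-!
The barrier argument and the continuation argument.
-/

open MeasureTheory Set Filter Topology
open scoped ContDiff

namespace Pool.Agent.L5helper76.SB

open H459R3.NS H459R3.EU

/-- a function with positive derivative increases to the right -/
theorem lt_of_deriv_pos {f : ℝ → ℝ} {D τ : ℝ} (h : HasDerivAt f D τ) (hD : 0 < D) :
    ∀ᶠ s in 𝓝[>] τ, f τ < f s := by
  have h1 := hasDerivAt_iff_tendsto_slope.1 h
  have h2 : ∀ᶠ s in 𝓝[≠] τ, 0 < slope f τ s := h1.eventually (lt_mem_nhds hD)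
  have h3 : ∀ᶠ s in 𝓝[>] τ, 0 < slope f τ s :=
    h2.filter_mono (nhdsWithin_mono τ fun s hs => ne_of_gt hs)
  filter_upwards [h3, self_mem_nhdsWithin] with s hs1 hs2
  have hs3 : 0 < s - τ := sub_pos.2 hs2
  rw [slope_def_field, div_pos_iff] at hs1
  rcases hs1 with hs1 | hs1
  · linarith [hs1.1]
  · linarith [hs1.2]

/-- The barrier lemma. -/
theorem barrier {Y : ℕ → ℝ → ℝ} {n : ℝ → ℕ} {b b' : ℝ → ℝ} {t₀ T : ℝ}
    (hY : ∀ m, ContinuousOn (Y m) (Ico t₀ T))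
    (hanti : ∀ t ∈ Ico t₀ T, Antitone fun m => Y m t)
    (hn : MonotoneOn n (Ico t₀ T))
    (hr : ∀ t ∈ Ico t₀ T, ∀ᶠ s in 𝓝[>] t, n s = n t)
    (hb0 : ContinuousWithinAt b (Ici t₀) t₀)
    (hb : ∀ t ∈ Ioo t₀ T, HasDerivAt b (b' t) t)
    (h0 : Y (n t₀) t₀ < b t₀)
    (hD : ∀ t ∈ Ioo t₀ T, Y (n t) t = b t → ∃ D, HasDerivAt (Y (n t)) D t ∧ D < b' t) :
    ∀ t ∈ Ico t₀ T, Y (n t) t ≤ b t := by
  by_contra hcon
  push Not at hcon
  obtain ⟨t1, ht1, hlt⟩ := hcon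
  set A : Set ℝ := {t | t ∈ Ico t₀ T ∧ b t < Y (n t) t} with hA
  have hAne : A.Nonempty := ⟨t1, ht1, hlt⟩
  have hAb : BddBelow A := ⟨t₀, fun t ht => ht.1.1⟩
  set τ := sInf A with hτ
  have hτ0 : t₀ ≤ τ := le_csInf hAne fun t ht => ht.1.1
  have hτ1 : τ ≤ t1 := csInf_le hAb ⟨ht1, hlt⟩
  have hτT : τ < T := hτ1.trans_lt ht1.2
  have hτI : τ ∈ Ico t₀ T := ⟨hτ0, hτT⟩
  have hbefore : ∀ s ∈ Ico t₀ τ, Y (n s) s ≤ b s := fun s hs => by
    by_contra h
    push Not at h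
    exact absurd (csInf_le hAb (show s ∈ A from ⟨⟨hs.1, hs.2.trans hτT⟩, h⟩)) (not_le.2 hs.2)
  have hright : Y (n τ) τ ≤ b τ → (∀ᶠ s in 𝓝[>] τ, Y (n τ) s ≤ b s) → False := by
    intro h1 h2
    have h3 : {s | Y (n s) s ≤ b s} ∈ 𝓝[>] τ := by
      filter_upwards [h2, hr τ hτI] with s hs1 hs2
      show Y (n s) s ≤ b s
      rwa [hs2]
    obtain ⟨ε, hε, hh⟩ := (mem_nhdsGT_iff_exists_Ioo_subset' hτT).1 h3
    have : ε ≤ τ := le_csInf hAne fun t ht => by
      by_contra hlt'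
      push Not at hlt'
      have hτt : τ ≤ t := csInf_le hAb ht
      rcases hτt.eq_or_lt with e | e
      · rw [← e] at ht
        exact absurd ht.2 (not_lt.2 h1)
      · exact absurd ht.2 (not_lt.2 (hh ⟨e, hlt'⟩))
    exact absurd hε (not_lt.2 this)
  have hYr : ContinuousWithinAt (Y (n τ)) (Ioi τ) τ := by
    refine ((hY (n τ)) τ hτI).mono_of_mem_nhdsWithin ?_
    filter_upwards [Ioo_mem_nhdsGT hτT] with s hs
    exact ⟨hτ0.trans hs.1.le, hs.2⟩
  have hbr : ContinuousWithinAt b (Ioi τ) τ := by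
    rcases hτ0.eq_or_lt with e | e
    · rw [← e]
      exact hb0.mono Ioi_subset_Ici_self
    · exact (hb τ ⟨e, hτT⟩).continuousAt.continuousWithinAt
  have hstrict : ¬ Y (n τ) τ < b τ := fun hlt' => by
    refine hright hlt'.le ?_
    filter_upwards [hYr.eventually_lt hbr hlt'] with s hs
    exact hs.le
  rcases hτ0.eq_or_lt with e | e
  · apply hstrict
    rw [← e]
    exact h0
  · have hYl : Tendsto (Y (n τ)) (𝓝[<] τ) (𝓝 (Y (n τ) τ)) := by
      refine ((hY (n τ)) τ hτI).mono_of_mem_nhdsWithin ?_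
      filter_upwards [Ioo_mem_nhdsLT e] with s hs
      exact ⟨hs.1.le, hs.2.trans hτT⟩
    have hbl : Tendsto b (𝓝[<] τ) (𝓝 (b τ)) :=
      (hb τ ⟨e, hτT⟩).continuousAt.continuousWithinAt
    have hle : Y (n τ) τ ≤ b τ := by
      refine le_of_tendsto_of_tendsto hYl hbl ?_
      filter_upwards [Ioo_mem_nhdsLT e] with s hs
      have hsI : s ∈ Ico t₀ T := ⟨hs.1.le, hs.2.trans hτT⟩
      exact (hanti s hsI (hn hsI hτI hs.2.le)).trans (hbefore s ⟨hs.1.le, hs.2⟩)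
    rcases hle.eq_or_lt with e2 | e2
    · obtain ⟨D, hD1, hD2⟩ := hD τ ⟨e, hτT⟩ e2
      refine hright hle ?_
      have hd : HasDerivAt (fun s => b s - Y (n τ) s) (b' τ - D) τ :=
        (hb τ ⟨e, hτT⟩).sub hD1
      filter_upwards [lt_of_deriv_pos hd (sub_pos.2 hD2)] with s hs
      rw [e2] at hs
      linarith
    · exact hstrict e2

theorem yy_antitone {v : V → V} (hv : ∀ i, SP (fun y => v y i)) : Antitone fun m => yy m v := by
  intro m n hmn
  show yy n v ≤ yy m v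
  rw [yy_eq hv, yy_eq hv]
  refine Finset.sum_le_sum fun l _ => Finset.sum_le_sum fun i _ =>
    Finset.sum_le_sum fun j _ => Finset.sum_le_sum fun k _ => ?_
  rw [int_hg_sq n (sp_d3 (hv l) i j k), int_hg_sq m (sp_d3 (hv l) i j k),
    int_lw_sq n (sp_d3 (hv l) i j k), int_lw_sq m (sp_d3 (hv l) i j k)]
  refine sub_le_sub_left (Finset.sum_le_sum_of_subset_of_nonneg ?_ fun _ _ _ => by positivity) _
  intro q hq
  rw [mem_bx] at hq ⊢
  omega

section

variable {ν T : ℝ} {u : ℝ → V → V} {p : ℝ → V → ℝ}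

/-- The flux criterion: the high frequencies stay below the barrier. -/
theorem yy_le (h : IsSol ν T u p) (hν : 0 ≤ ν) {E : ℝ} (hE0 : 0 ≤ E)
    (hE : energy (u 0) ≤ E ^ 2) {t₀ : ℝ} (ht₀ : 0 ≤ t₀) {n : ℝ → ℕ} {b b' : ℝ → ℝ}
    (hn : MonotoneOn n (Ico t₀ T))
    (hr : ∀ t ∈ Ico t₀ T, ∀ᶠ s in 𝓝[>] t, n s = n t)
    (hb0 : ContinuousWithinAt b (Ici t₀) t₀)
    (hb : ∀ t ∈ Ioo t₀ T, HasDerivAt b (b' t) t)
    (h0 : yy (n t₀) (u t₀) < b t₀)
    (hD : ∀ t ∈ Ioo t₀ T, yy (n t) (u t) = b t →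
      fl (n t) (fun i y => u t y i) + 10 ^ 8 * (E * G (n t) * b t + Real.sqrt (b t) * b t)
        < b' t) :
    ∀ t ∈ Ico t₀ T, yy (n t) (u t) ≤ b t := by
  refine barrier (Y := fun m s => yy m (u s)) (fun m => ?_) (fun t ht => ?_) hn hr hb0 hb h0
    fun t ht he => ?_
  · exact (yy_continuousOn h m).mono (Ico_subset_Ico_left ht₀)
  · exact yy_antitone fun i => h.sp ⟨ht₀.trans ht.1, ht.2⟩ i
  · obtain ⟨D, hD1, hD2⟩ := yy_deriv_le h hν hE0 hE (n t) ⟨ht₀.trans_lt ht.1, ht.2⟩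
    refine ⟨D, hD1, ?_⟩
    have := hD t ht he
    have he' : yy (n t) (u t) = b t := he
    rw [he'] at hD2
    linarith

/-- gradient bound -/
theorem grad_le {v : Fin 3 → V → ℝ} (hv : ∀ i, SP (v i)) {E : ℝ} (hE : ∀ i, nrm (v i) ≤ E)
    (n : ℕ) (i j : Fin 3) (x : V) :
    |pd j (v i) x| ≤ 33 * G n * E + 46 * YY n v := by
  have h1 := (BD_lo (n := n) hv hE).z i j x
  have h2 := (BD_hi (n := n) hv).z i j x
  have e1 : pd j (v i) x = pd j (lo n v i) x + pd j (hi n v i) x := by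
    have h : pd j (hi n v i) x = pd j (v i) x - pd j (lo n v i) x :=
      congrFun (pd_sub (hv i) (sp_lo n v i) j) x
    rw [h]; ring
  rw [e1]
  refine (abs_add_le _ _).trans (add_le_add h1 (h2.trans ?_))
  have := a4 n
  have h3 := YY_nonneg n v
  nlinarith

/-- growth of the third derivatives under a gradient bound -/
theorem dsq_deriv_le (h : IsSol ν T u p) (hν : 0 ≤ ν) {t : ℝ} (ht : t ∈ Ioo 0 T) {Z : ℝ}
    (hZ : ∀ i j x, |pd j (fun y => u t y i) x| ≤ Z) :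
    ∃ D, HasDerivAt (fun s => dsq (u s)) D t ∧ D ≤ 7776 * Z * dsq (u t) := by
  refine ⟨_, dsq_hasDerivAt h ht, ?_⟩
  have hI : t ∈ Ico 0 T := ⟨ht.1.le, ht.2⟩
  have hsp : ∀ i, SP (fun y => u t y i) := fun i => h.sp hI i
  have hB : BD (fun i y => u t y i) Z (Real.sqrt (dsq (u t))) :=
    ⟨hsp, hZ, fun l i j k => nrm_le_third (u t) l i j k⟩
  have t1 := abs_le.1 (abs_sub_Tr hB hB hsp hB.X)
  rw [Tr_self hsp (h.divfree t hI) hsp, sub_zero] at t1
  have f0 : 0 ≤ 2 * ν * fourth (fun i y => u t y i) :=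
    mul_nonneg (by positivity) (fourth_nonneg _)
  have e : (Z * Real.sqrt (dsq (u t)) + Z * Real.sqrt (dsq (u t))) * Real.sqrt (dsq (u t))
      = 2 * Z * dsq (u t) := by
    have := Real.mul_self_sqrt (dsq_nonneg (u t))
    calc _ = 2 * Z * (Real.sqrt (dsq (u t)) * Real.sqrt (dsq (u t))) := by ring
      _ = _ := by rw [this]
  rw [e] at t1
  linarith [t1.1]

/-- Gronwall on a time interval, with a comparison function -/
theorem gron_cmp {y : ℝ → ℝ} {m m' : ℝ → ℝ} {t₁ T : ℝ}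
    (hyc : ContinuousOn y (Ico t₁ T)) (hy : ∀ s ∈ Ioo t₁ T, ∃ D, HasDerivAt y D s ∧
      D * m s + y s * m' s ≤ 0)
    (hmc : ContinuousOn m (Ico t₁ T)) (hm : ∀ s ∈ Ioo t₁ T, HasDerivAt m (m' s) s) {t : ℝ}
    (ht : t ∈ Ico t₁ T) : y t * m t ≤ y t₁ * m t₁ := by
  have hanti : AntitoneOn (fun s => y s * m s) (Icc t₁ t) := by
    refine antitoneOn_of_deriv_nonpos (convex_Icc t₁ t) ?_ ?_ ?_
    · exact (hyc.mul hmc).mono fun s hs => ⟨hs.1, hs.2.trans_lt ht.2⟩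
    · rw [interior_Icc]
      intro s hs
      obtain ⟨D, hD, -⟩ := hy s ⟨hs.1, hs.2.trans ht.2⟩
      exact (hD.mul (hm s ⟨hs.1, hs.2.trans ht.2⟩)).differentiableAt.differentiableWithinAt
    · rw [interior_Icc]
      intro s hs
      obtain ⟨D, hD, hle⟩ := hy s ⟨hs.1, hs.2.trans ht.2⟩
      have := (hD.mul (hm s ⟨hs.1, hs.2.trans ht.2⟩)).deriv
      have e : deriv (fun s => y s * m s) s = D * m s + y s * m' s := this
      rw [e]
      exact hle
  exact hanti ⟨le_rfl, ht.1⟩ ⟨ht.1, le_rfl⟩ ht.1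

theorem yy_zero {v : V → V} (hv : ∀ i, SP (fun y => v y i)) : yy 0 v = dsq v := by
  rw [yy_eq hv]
  unfold dsq
  refine Finset.sum_congr rfl fun l _ => Finset.sum_congr rfl fun i _ =>
    Finset.sum_congr rfl fun j _ => Finset.sum_congr rfl fun k _ => ?_
  have e : hg 0 (d3 i j k (fun y => v y l)) = d3 i j k (fun y => v y l) := by
    refine sp_ext (sp_hg 0 (sp_d3 (hv l) i j k)) (sp_d3 (hv l) i j k) fun m => ?_
    rw [fr_hg 0 (sp_d3 (hv l) i j k)]
    split_ifs with hm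
    · have hm0 : m = 0 := by
        have := (N_le_iff m 0).1 hm
        funext q
        have := this q
        simpa using this
      unfold d3
      rw [fr_pd (((hv l).pd k).pd j), D, hm0]
      simp
    · rfl
  rw [e]

theorem fl_zero {v : Fin 3 → V → ℝ} (hv : ∀ i, SP (v i)) : fl 0 v = 0 := by
  have e : cv (lo 0 v) (lo 0 v) = fun _ _ => 0 := by
    funext l x
    unfold cv
    refine Finset.sum_eq_zero fun m _ => ?_
    have h0 := sup_pd_low 0 (hv l) m x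
    have : G 0 = 0 := by simp [G]
    rw [this, mul_zero, zero_mul] at h0
    have h1 : pd m (lo 0 v l) x = 0 := abs_eq_zero.1 (le_antisymm h0 (abs_nonneg _))
    rw [h1, mul_zero]
  unfold fl
  rw [e]
  have : Q3 (fun _ _ => (0 : ℝ)) (hi 0 v) = 0 := by
    unfold Q3 d3 pd
    simp
  rw [this, mul_zero]

/-- the a priori inequality -/
theorem dsq_deriv_le' (h : IsSol ν T u p) (hν : 0 ≤ ν) {t : ℝ} (ht : t ∈ Ioo 0 T) :
    ∃ D, HasDerivAt (fun s => dsq (u s)) D t ∧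
      D ≤ 10 ^ 8 * (Real.sqrt (dsq (u t)) * dsq (u t)) := by
  have hI : t ∈ Ico 0 T := ⟨ht.1.le, ht.2⟩
  have hE : energy (u 0) ≤ Real.sqrt (energy (u 0)) ^ 2 := by
    rw [Real.sq_sqrt]
    unfold energy
    exact Finset.sum_nonneg fun _ _ => integral_nonneg fun _ => sq_nonneg _
  obtain ⟨D, hD1, hD2⟩ := yy_deriv_le h hν (Real.sqrt_nonneg _) hE 0 ht
  refine ⟨D, hD1.congr_of_eventuallyEq ?_, ?_⟩
  · filter_upwards [Ioo_mem_nhds ht.1 ht.2] with s hs
    exact (yy_zero fun i => h.sp ⟨hs.1.le, hs.2⟩ i).symm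
  · rw [fl_zero fun i => h.sp hI i, yy_zero fun i => h.sp hI i] at hD2
    have : G 0 = 0 := by simp [G]
    rw [this] at hD2
    linarith

/-- continuation -/
theorem bounded_of_barrier (h : IsSol ν T u p) (hν : 0 ≤ ν) {E : ℝ} (hE0 : 0 ≤ E)
    (hE : energy (u 0) ≤ E ^ 2) {t₁ : ℝ} (ht₁ : t₁ ∈ Ico 0 T) {n : ℝ → ℕ} {b : ℝ → ℝ}
    (hb : ∀ t ∈ Ico t₁ T, yy (n t) (u t) ≤ b t)
    (hs : ∀ t ∈ Ioo t₁ T, 10 ^ 8 * (E * G (n t) + Real.sqrt (b t)) * (T - t) ≤ 1) :
    ∃ M, ∀ t ∈ Ico 0 T, dsq (u t) ≤ M := by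
  have hI : ∀ {s}, s ∈ Ioo t₁ T → s ∈ Ioo 0 T := fun hs => ⟨ht₁.1.trans_lt hs.1, hs.2⟩
  have hcD : ContinuousOn (fun s => dsq (u s)) (Ico t₁ T) :=
    (dsq_continuousOn h).mono (Ico_subset_Ico_left ht₁.1)
  have hTt : 0 < T - t₁ := sub_pos.2 ht₁.2
  -- first step : dsq (u t) ≤ M / (T - t)
  have h1 : ∀ t ∈ Ico t₁ T, dsq (u t) * (T - t) ≤ dsq (u t₁) * (T - t₁) := by
    intro t ht
    refine gron_cmp (y := fun s => dsq (u s)) (m := fun s => T - s) (m' := fun _ => -1)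
      hcD (fun s hs' => ?_) (continuousOn_const.sub continuousOn_id)
      (fun s _ => by simpa using (hasDerivAt_id s).const_sub T) ht
    have hsI : s ∈ Ico 0 T := ⟨(hI hs').1.le, hs'.2⟩
    obtain ⟨D, hD1, hD2⟩ := dsq_deriv_le h hν (hI hs')
      (Z := 33 * G (n s) * E + 46 * YY (n s) fun i y => u s y i)
      (grad_le (fun i => h.sp hsI i) (fun i => nrm_le_of_energy h hν hE0 hE hsI i) (n s))
    refine ⟨D, hD1, ?_⟩
    have hY : (YY (n s) fun i y => u s y i) ≤ Real.sqrt (b s) :=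
      Real.sqrt_le_sqrt (hb s ⟨hs'.1.le, hs'.2⟩)
    have hTs : 0 < T - s := sub_pos.2 hs'.2
    have hd := dsq_nonneg (u s)
    have hG := G_nonneg (n s)
    have hsb := Real.sqrt_nonneg (b s)
    have hEG : 0 ≤ E * G (n s) := mul_nonneg hE0 hG
    have h5 := hs s hs'
    have h6 : 7776 * (33 * G (n s) * E + 46 * YY (n s) fun i y => u s y i) * (T - s) ≤ 1 := by
      refine le_trans ?_ h5
      refine mul_le_mul_of_nonneg_right ?_ hTs.le
      nlinarith
    have h7 : D * (T - s) ≤ dsq (u s) := by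
      calc D * (T - s)
          ≤ (7776 * (33 * G (n s) * E + 46 * YY (n s) fun i y => u s y i) * dsq (u s))
            * (T - s) := mul_le_mul_of_nonneg_right hD2 hTs.le
        _ = dsq (u s) * (7776 * (33 * G (n s) * E + 46 * YY (n s) fun i y => u s y i)
            * (T - s)) := by ring
        _ ≤ dsq (u s) * 1 := mul_le_mul_of_nonneg_left h6 hd
        _ = dsq (u s) := mul_one _
    show D * (T - s) + dsq (u s) * -1 ≤ 0
    linarith
  set M : ℝ := dsq (u t₁) * (T - t₁) with hM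
  have hM0 : 0 ≤ M := mul_nonneg (dsq_nonneg _) hTt.le
  set K : ℝ := 10 ^ 8 * Real.sqrt M with hK
  have hK0 : 0 ≤ K := by positivity
  -- second step
  have h2 : ∀ t ∈ Ico t₁ T, dsq (u t) ≤ dsq (u t₁) * Real.exp (2 * K * Real.sqrt (T - t₁)) := by
    intro t ht
    have key := gron_cmp (y := fun s => dsq (u s)) (m := fun s => Real.exp (2 * K * Real.sqrt (T - s)))
      (m' := fun s => Real.exp (2 * K * Real.sqrt (T - s)) * (2 * K * (-1 / (2 * Real.sqrt (T - s)))))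
      hcD (fun s hs' => ?_) (by fun_prop) (fun s hs' => ?_) ht
    · have h0 : (1 : ℝ) ≤ Real.exp (2 * K * Real.sqrt (T - t)) :=
        Real.one_le_exp (mul_nonneg (by positivity) (Real.sqrt_nonneg _))
      calc dsq (u t) = dsq (u t) * 1 := (mul_one _).symm
        _ ≤ dsq (u t) * Real.exp (2 * K * Real.sqrt (T - t)) :=
          mul_le_mul_of_nonneg_left h0 (dsq_nonneg _)
        _ ≤ _ := key
    · obtain ⟨D, hD1, hD2⟩ := dsq_deriv_le' h hν (hI hs')
      refine ⟨D, hD1, ?_⟩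
      have hTs : 0 < T - s := sub_pos.2 hs'.2
      have hsq : 0 < Real.sqrt (T - s) := Real.sqrt_pos.2 hTs
      have hd := dsq_nonneg (u s)
      have h3 : Real.sqrt (dsq (u s)) ≤ Real.sqrt M / Real.sqrt (T - s) := by
        rw [← Real.sqrt_div hM0]
        refine Real.sqrt_le_sqrt ?_
        rw [le_div_iff₀ hTs]
        exact h1 s ⟨hs'.1.le, hs'.2⟩
      have h4 : D ≤ K / Real.sqrt (T - s) * dsq (u s) := by
        refine hD2.trans ?_
        have := mul_le_mul_of_nonneg_right h3 hd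
        calc 10 ^ 8 * (Real.sqrt (dsq (u s)) * dsq (u s))
            ≤ 10 ^ 8 * (Real.sqrt M / Real.sqrt (T - s) * dsq (u s)) := by linarith
          _ = K / Real.sqrt (T - s) * dsq (u s) := by rw [hK]; ring
      have he := Real.exp_pos (2 * K * Real.sqrt (T - s))
      have e : D * Real.exp (2 * K * Real.sqrt (T - s)) + dsq (u s)
          * (Real.exp (2 * K * Real.sqrt (T - s)) * (2 * K * (-1 / (2 * Real.sqrt (T - s)))))
          = (D - K / Real.sqrt (T - s) * dsq (u s)) * Real.exp (2 * K * Real.sqrt (T - s)) := by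
        field_simp
        ring
      rw [e]
      exact mul_nonpos_of_nonpos_of_nonneg (by linarith) he.le
    · have hTs : 0 < T - s := sub_pos.2 hs'.2
      have a1 : HasDerivAt (fun s => T - s) (-1) s := by
        simpa using (hasDerivAt_id s).const_sub T
      have a2 := (a1.sqrt hTs.ne').const_mul (2 * K)
      exact a2.exp
  -- on [0, t₁]
  obtain ⟨C, hC⟩ := isCompact_Icc.exists_bound_of_continuousOn
    ((dsq_continuousOn h).mono (show Icc 0 t₁ ⊆ Ico 0 T from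
      fun s hs => ⟨hs.1, hs.2.trans_lt ht₁.2⟩))
  refine ⟨max C (dsq (u t₁) * Real.exp (2 * K * Real.sqrt (T - t₁))), fun t ht => ?_⟩
  rcases le_total t t₁ with h3 | h3
  · have := hC t ⟨ht.1, h3⟩
    rw [Real.norm_eq_abs] at this
    exact ((le_abs_self _).trans this).trans (le_max_left _ _)
  · exact (h2 t ⟨h3, ht.2⟩).trans (le_max_right _ _)

end

end Pool.Agent.L5helper76.SB
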