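import Pool.Agent.L5helper76.SB.Proj

/-!
Bernstein inequalities for low and high frequencies.
-/

open MeasureTheory Set Filter Topology
open scoped ContDiff

namespace Pool.Agent.L5helper76.SB

open H459R3.NS H459R3.EU

theorem nrm_eq_n2 {f : V → ℝ} (hf : SP f) : nrm f = n2 (fr f) := by
  have h : nrm f ^ 2 = n2 (fr f) ^ 2 := by rw [nrm_sq, n2_fr hf]
  exact (pow_left_inj₀ (nrm_nonneg _) (n2_nonneg _) two_ne_zero).1 h

/-- low frequencies: derivatives in `L²` -/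
theorem nrm_pd_le {g : V → ℝ} (hg : SP g) {n : ℕ} (h : ∀ k, n < N k → fr g k = 0) (j : Fin 3) :
    nrm (pd j g) ≤ 2 * Real.pi * n * nrm g := by
  have hp := Real.pi_pos
  have h0 : nrm (pd j g) ^ 2 ≤ (2 * Real.pi * n * nrm g) ^ 2 := by
    rw [nrm_eq_n2 (hg.pd j), nrm_eq_n2 hg, mul_pow, n2_sq, n2_sq, ← tsum_mul_left]
    refine Summable.tsum_le_tsum (fun k => ?_) (summable_sq (rap_fr (hg.pd j)).summable)
      ((summable_sq (rap_fr hg).summable).mul_left _)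
    rw [fr_pd hg]
    by_cases hk : N k ≤ n
    · have h1 := norm_D_le j (fr g) k
      have h2 : ‖D j (fr g) k‖ ≤ 2 * Real.pi * n * ‖fr g k‖ := by
        refine h1.trans ?_
        have : (N k : ℝ) ≤ n := by exact_mod_cast hk
        nlinarith [mul_le_mul_of_nonneg_right this (norm_nonneg (fr g k))]
      calc ‖D j (fr g) k‖ ^ 2 ≤ (2 * Real.pi * n * ‖fr g k‖) ^ 2 :=
            pow_le_pow_left₀ (norm_nonneg _) h2 2
        _ = _ := by ring
    · rw [D, h k (by omega)]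
      simp
  exact (pow_le_pow_iff_left₀ (nrm_nonneg _)
    (mul_nonneg (by positivity) (nrm_nonneg _)) two_ne_zero).1 h0

/-- low frequencies: the supremum -/
theorem sup_low {g : V → ℝ} (hg : SP g) {n : ℕ} (h : ∀ k, n < N k → fr g k = 0) (x : V) :
    |g x| ≤ Real.sqrt ((2 * n + 1) ^ 3) * nrm g := by
  have h1 : |g x| ≤ ∑' k, ‖fr g k‖ := by
    have := norm_S_le (rap_fr hg).summable x
    rwa [S_fr hg, Complex.norm_real, Real.norm_eq_abs] at this
  have h2 : ∑' k, ‖fr g k‖ = ∑ k ∈ bx n, ‖fr g k‖ := by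
    refine tsum_eq_sum fun k hk => ?_
    rw [mem_bx] at hk
    rw [h k (by omega), norm_zero]
  rw [h2] at h1
  have h3 : (∑ k ∈ bx n, ‖fr g k‖) ^ 2 ≤ (bx n).card * ∑ k ∈ bx n, ‖fr g k‖ ^ 2 :=
    sq_sum_le_card_mul_sum_sq
  have h4 : ∑ k ∈ bx n, ‖fr g k‖ ^ 2 ≤ nrm g ^ 2 := by
    rw [nrm_eq_n2 hg, n2_sq]
    exact (summable_sq (rap_fr hg).summable).sum_le_tsum _ fun _ _ => sq_nonneg _
  rw [card_bx] at h3
  push_cast at h3
  have h5 : (∑ k ∈ bx n, ‖fr g k‖) ^ 2 ≤ (Real.sqrt ((2 * n + 1) ^ 3) * nrm g) ^ 2 := by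
    rw [mul_pow, Real.sq_sqrt (by positivity)]
    exact h3.trans (mul_le_mul_of_nonneg_left h4 (by positivity))
  exact h1.trans ((pow_le_pow_iff_left₀ (Finset.sum_nonneg fun _ _ => norm_nonneg _)
    (mul_nonneg (Real.sqrt_nonneg _) (nrm_nonneg _)) two_ne_zero).1 h5)

/-! ### the tail of the lattice sum -/

noncomputable def tl (n : ℕ) (k : K3) : ℝ := if N k ≤ n then 0 else 1 / (N k : ℝ) ^ 4

theorem tl_nonneg (n : ℕ) (k : K3) : 0 ≤ tl n k := by unfold tl; split_ifs <;> positivity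

theorem sum_tl (n M : ℕ) (hM : n ≤ M) :
    ∑ k ∈ bx M, tl n k ≤ 26 * (1 / ((n : ℝ) + 1 / 2) - 1 / ((M : ℝ) + 1 / 2)) := by
  induction M, hM using Nat.le_induction with
  | base =>
    rw [sub_self, mul_zero]
    refine le_of_eq (Finset.sum_eq_zero fun k hk => ?_)
    rw [tl, if_pos (mem_bx.1 hk)]
  | succ M hM ih =>
    have hsub : bx M ⊆ bx (M + 1) := fun k hk => mem_bx.2 ((mem_bx.1 hk).trans (Nat.le_succ M))
    rw [← Finset.sum_sdiff hsub]
    have e : ∑ k ∈ bx (M + 1) \ bx M, tl n k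
        = ((bx (M + 1)).card - (bx M).card : ℝ) * (1 / ((M : ℝ) + 1) ^ 4) := by
      have e1 : ∀ k ∈ bx (M + 1) \ bx M, tl n k = 1 / ((M : ℝ) + 1) ^ 4 := by
        intro k hk
        rw [Finset.mem_sdiff, mem_bx, mem_bx] at hk
        have : N k = M + 1 := by omega
        rw [tl, if_neg (by omega), this]
        push_cast
        rfl
      rw [Finset.sum_congr rfl e1, Finset.sum_const, nsmul_eq_mul, Finset.cast_card_sdiff hsub]
    rw [e, card_bx, card_bx]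
    push_cast
    have hm : (0 : ℝ) ≤ M := Nat.cast_nonneg _
    have k1 : ((2 * ((M : ℝ) + 1) + 1) ^ 3 - (2 * (M : ℝ) + 1) ^ 3) * (1 / ((M : ℝ) + 1) ^ 4)
        ≤ 26 * (1 / ((M : ℝ) + 1 / 2) - 1 / ((M : ℝ) + 1 + 1 / 2)) := by
      have e2 : (1 : ℝ) / ((M : ℝ) + 1 / 2) - 1 / ((M : ℝ) + 1 + 1 / 2)
          = 1 / (((M : ℝ) + 1 / 2) * ((M : ℝ) + 1 + 1 / 2)) := by
        field_simp
        ring
      rw [e2, mul_one_div, mul_one_div, div_le_div_iff₀ (by positivity) (by positivity)]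
      nlinarith [pow_nonneg hm 2, pow_nonneg hm 3, pow_nonneg hm 4]
    linarith

theorem summable_tl (n : ℕ) : Summable (tl n) := by
  refine Summable.of_nonneg_of_le (tl_nonneg n) (fun k => ?_) summable_N4
  unfold tl
  by_cases h : N k ≤ n
  · rw [if_pos h]
    split_ifs <;> positivity
  · rw [if_neg h, if_neg]
    rintro rfl
    exact h (by rw [N_eq_zero.2 rfl]; exact Nat.zero_le _)

theorem tsum_tl (n : ℕ) : ∑' k, tl n k ≤ 52 / ((n : ℝ) + 1) := by
  have hn : (0 : ℝ) ≤ n := Nat.cast_nonneg _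
  have hb : 26 * (1 / ((n : ℝ) + 1 / 2)) ≤ 52 / ((n : ℝ) + 1) := by
    rw [mul_one_div, div_le_div_iff₀ (by positivity) (by positivity)]
    nlinarith
  refine le_trans ?_ hb
  refine (summable_tl n).tsum_le_of_sum_le fun s => ?_
  have hs : s ⊆ bx (max n (s.sup N)) := fun k hk =>
    mem_bx.2 ((Finset.le_sup (f := N) hk).trans (le_max_right _ _))
  refine (Finset.sum_le_sum_of_subset_of_nonneg hs fun k _ _ => tl_nonneg n k).trans ?_
  refine (sum_tl n _ (le_max_left _ _)).trans ?_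
  have : (0 : ℝ) ≤ 1 / (((max n (s.sup N) : ℕ) : ℝ) + 1 / 2) := by positivity
  linarith

/-! ### high frequencies -/

/-- the third derivatives in the coordinate directions -/
noncomputable def t3 (g : V → ℝ) : ℝ := Real.sqrt (∑ m, ∫ x in cube, d3 m m m g x ^ 2)

theorem t3_nonneg (g : V → ℝ) : 0 ≤ t3 g := Real.sqrt_nonneg _

theorem t3_sq (g : V → ℝ) : t3 g ^ 2 = ∑ m, ∫ x in cube, d3 m m m g x ^ 2 :=
  Real.sq_sqrt (Finset.sum_nonneg fun _ _ => integral_nonneg fun _ => sq_nonneg _)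

theorem N6_le {g : V → ℝ} (hg : SP g) :
    (Summable fun k => ((N k : ℝ) ^ 3 * ‖fr g k‖) ^ 2) ∧
      ∑' k, ((N k : ℝ) ^ 3 * ‖fr g k‖) ^ 2 ≤ t3 g ^ 2 := by
  have hb : ∀ k, ((N k : ℝ) ^ 3 * ‖fr g k‖) ^ 2 ≤ ∑ m, ‖fr (d3 m m m g) k‖ ^ 2 := by
    intro k
    obtain ⟨j, hj⟩ : ∃ j, N k = (k j).natAbs := by
      obtain ⟨j, -, hj⟩ := Finset.exists_mem_eq_sup (Finset.univ : Finset (Fin 3))
        ⟨0, Finset.mem_univ 0⟩ (fun j => (k j).natAbs)
      exact ⟨j, hj⟩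
    refine le_trans ?_ (Finset.single_le_sum (f := fun m => ‖fr (d3 m m m g) k‖ ^ 2)
      (fun _ _ => sq_nonneg _) (Finset.mem_univ j))
    refine pow_le_pow_left₀ (by positivity) ?_ 2
    have e : fr (d3 j j j g) k = (2 * Real.pi * Complex.I * (k j : ℂ)) ^ 3 * fr g k := by
      have := fr_iter hg j 3 k
      exact this
    rw [e, norm_mul, norm_pow]
    refine mul_le_mul_of_nonneg_right ?_ (norm_nonneg _)
    refine pow_le_pow_left₀ (by positivity) ?_ 3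
    rw [norm_mul, norm_mul, norm_mul, Complex.norm_I, mul_one, Complex.norm_real,
      Real.norm_eq_abs, abs_of_pos Real.pi_pos, Complex.norm_ofNat, Complex.norm_intCast]
    have h1 : (N k : ℝ) = |(k j : ℝ)| := by
      rw [hj, ← Int.cast_abs, Int.abs_eq_natAbs]
      simp
    rw [← h1]
    have := Real.pi_gt_three
    have h0 : (0 : ℝ) ≤ N k := Nat.cast_nonneg _
    nlinarith
  have hs : Summable fun k => ∑ m, ‖fr (d3 m m m g) k‖ ^ 2 :=
    summable_sum fun m _ => summable_sq (rap_fr (sp_d3 hg m m m)).summable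
  have hs' := Summable.of_nonneg_of_le (fun k => sq_nonneg _) hb hs
  refine ⟨hs', (Summable.tsum_le_tsum hb hs' hs).trans (le_of_eq ?_)⟩
  rw [Summable.tsum_finsetSum fun m _ => summable_sq (rap_fr (sp_d3 hg m m m)).summable, t3_sq]
  refine Finset.sum_congr rfl fun m _ => ?_
  rw [← n2_fr (sp_d3 hg m m m), n2_sq]

/-- Cauchy–Schwarz for series -/
theorem cs_tsum {a b : K3 → ℝ} (ha0 : ∀ k, 0 ≤ a k) (hb0 : ∀ k, 0 ≤ b k)
    (ha : Summable fun k => a k ^ 2) (hb : Summable fun k => b k ^ 2) :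
    (Summable fun k => a k * b k) ∧
      ∑' k, a k * b k ≤ Real.sqrt (∑' k, a k ^ 2) * Real.sqrt (∑' k, b k ^ 2) := by
  have hs : Summable fun k => a k * b k := by
    refine Summable.of_nonneg_of_le (fun k => mul_nonneg (ha0 k) (hb0 k)) (fun k => ?_) (ha.add hb)
    nlinarith [sq_nonneg (a k - b k), sq_nonneg (a k), sq_nonneg (b k)]
  refine ⟨hs, hs.tsum_le_of_sum_le fun s => ?_⟩
  have h1 := Finset.sum_mul_sq_le_sq_mul_sq s a b
  have h2 : ∑ k ∈ s, a k ^ 2 ≤ ∑' k, a k ^ 2 := ha.sum_le_tsum _ fun _ _ => sq_nonneg _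
  have h3 : ∑ k ∈ s, b k ^ 2 ≤ ∑' k, b k ^ 2 := hb.sum_le_tsum _ fun _ _ => sq_nonneg _
  rw [← Real.sqrt_mul (tsum_nonneg fun _ => sq_nonneg _)]
  refine Real.le_sqrt_of_sq_le (h1.trans ?_)
  exact mul_le_mul h2 h3 (Finset.sum_nonneg fun _ _ => sq_nonneg _)
    (tsum_nonneg fun _ => sq_nonneg _)

/-- high frequencies: the supremum -/
theorem sup_high {g : V → ℝ} (hg : SP g) {n : ℕ} (h : ∀ k, N k ≤ n → fr g k = 0) (x : V) :
    |g x| ≤ Real.sqrt (52 / ((n : ℝ) + 1)) / ((n : ℝ) + 1) * t3 g := by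
  have h1 : |g x| ≤ ∑' k, ‖fr g k‖ := by
    have := norm_S_le (rap_fr hg).summable x
    rwa [S_fr hg, Complex.norm_real, Real.norm_eq_abs] at this
  obtain ⟨s6, t6⟩ := N6_le hg
  have hn : (0 : ℝ) < (n : ℝ) + 1 := by positivity
  have sa : Summable fun k => Real.sqrt (tl n k) ^ 2 :=
    (summable_tl n).congr fun k => (Real.sq_sqrt (tl_nonneg n k)).symm
  obtain ⟨s7, t7⟩ := cs_tsum (a := fun k => Real.sqrt (tl n k))
    (b := fun k => (N k : ℝ) ^ 3 * ‖fr g k‖) (fun k => Real.sqrt_nonneg _)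
    (fun k => by positivity) sa s6
  have h2 : ∀ k, ‖fr g k‖ ≤ 1 / ((n : ℝ) + 1) * (Real.sqrt (tl n k) * ((N k : ℝ) ^ 3 * ‖fr g k‖)) := by
    intro k
    by_cases hk : N k ≤ n
    · rw [h k hk]; simp
    · have hk' : (n : ℝ) + 1 ≤ N k := by
        push Not at hk
        exact_mod_cast hk
      have hk0 : (0 : ℝ) < N k := hn.trans_le hk'
      have e : Real.sqrt (tl n k) = 1 / (N k : ℝ) ^ 2 := by
        rw [tl, if_neg hk, show (1 : ℝ) / (N k : ℝ) ^ 4 = (1 / (N k : ℝ) ^ 2) ^ 2 by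
          rw [div_pow, one_pow, ← pow_mul], Real.sqrt_sq (by positivity)]
      rw [e]
      have e2 : 1 / ((n : ℝ) + 1) * (1 / (N k : ℝ) ^ 2 * ((N k : ℝ) ^ 3 * ‖fr g k‖))
          = (N k : ℝ) / ((n : ℝ) + 1) * ‖fr g k‖ := by
        field_simp
      rw [e2]
      have : 1 ≤ (N k : ℝ) / ((n : ℝ) + 1) := (one_le_div hn).2 hk'
      nlinarith [norm_nonneg (fr g k)]
  have h3 : ∑' k, ‖fr g k‖ ≤ 1 / ((n : ℝ) + 1)
      * (Real.sqrt (52 / ((n : ℝ) + 1)) * t3 g) := by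
    refine (Summable.tsum_le_tsum h2 (rap_fr hg).summable.norm (s7.mul_left _)).trans ?_
    rw [tsum_mul_left]
    refine mul_le_mul_of_nonneg_left (t7.trans ?_) (by positivity)
    refine mul_le_mul (Real.sqrt_le_sqrt ?_) ?_ (Real.sqrt_nonneg _) (Real.sqrt_nonneg _)
    · rw [show (fun k => Real.sqrt (tl n k) ^ 2) = tl n from
        funext fun k => Real.sq_sqrt (tl_nonneg n k)]
      exact tsum_tl n
    · rw [← Real.sqrt_sq (t3_nonneg g)]
      exact Real.sqrt_le_sqrt t6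
  refine h1.trans (h3.trans (le_of_eq ?_))
  ring

/-- high frequencies: the supremum of the gradient -/
theorem sup_pd_high {g : V → ℝ} (hg : SP g) {n : ℕ} (h : ∀ k, N k ≤ n → fr g k = 0) (j : Fin 3)
    (x : V) : |pd j g x| ≤ 2 * Real.pi * Real.sqrt (52 / ((n : ℝ) + 1)) * t3 g := by
  have hp := Real.pi_pos
  have h1 : |pd j g x| ≤ ∑' k, ‖fr (pd j g) k‖ := by
    have := norm_S_le (rap_fr (hg.pd j)).summable x
    rwa [S_fr (hg.pd j), Complex.norm_real, Real.norm_eq_abs] at this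
  obtain ⟨s6, t6⟩ := N6_le hg
  have hn : (0 : ℝ) < (n : ℝ) + 1 := by positivity
  have sa : Summable fun k => Real.sqrt (tl n k) ^ 2 :=
    (summable_tl n).congr fun k => (Real.sq_sqrt (tl_nonneg n k)).symm
  obtain ⟨s7, t7⟩ := cs_tsum (a := fun k => Real.sqrt (tl n k))
    (b := fun k => (N k : ℝ) ^ 3 * ‖fr g k‖) (fun k => Real.sqrt_nonneg _)
    (fun k => by positivity) sa s6
  have h2 : ∀ k, ‖fr (pd j g) k‖
      ≤ 2 * Real.pi * (Real.sqrt (tl n k) * ((N k : ℝ) ^ 3 * ‖fr g k‖)) := by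
    intro k
    rw [fr_pd hg]
    refine (norm_D_le j (fr g) k).trans ?_
    by_cases hk : N k ≤ n
    · rw [h k hk]; simp
    · have hk' : (n : ℝ) + 1 ≤ N k := by
        push Not at hk
        exact_mod_cast hk
      have hk0 : (0 : ℝ) < N k := hn.trans_le hk'
      have e : Real.sqrt (tl n k) = 1 / (N k : ℝ) ^ 2 := by
        rw [tl, if_neg hk, show (1 : ℝ) / (N k : ℝ) ^ 4 = (1 / (N k : ℝ) ^ 2) ^ 2 by
          rw [div_pow, one_pow, ← pow_mul], Real.sqrt_sq (by positivity)]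
      rw [e]
      refine le_of_eq ?_
      field_simp
  refine h1.trans ((Summable.tsum_le_tsum h2 (rap_fr (hg.pd j)).summable.norm
    (s7.mul_left _)).trans ?_)
  rw [tsum_mul_left, show 2 * Real.pi * Real.sqrt (52 / ((n : ℝ) + 1)) * t3 g
    = 2 * Real.pi * (Real.sqrt (52 / ((n : ℝ) + 1)) * t3 g) by ring]
  refine mul_le_mul_of_nonneg_left (t7.trans ?_) (by positivity)
  refine mul_le_mul (Real.sqrt_le_sqrt ?_) ?_ (Real.sqrt_nonneg _) (Real.sqrt_nonneg _)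
  · rw [show (fun k => Real.sqrt (tl n k) ^ 2) = tl n from
      funext fun k => Real.sq_sqrt (tl_nonneg n k)]
    exact tsum_tl n
  · rw [← Real.sqrt_sq (t3_nonneg g)]
    exact Real.sqrt_le_sqrt t6

end Pool.Agent.L5helper76.SB
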