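import Pool.Agent.L5helper76.SB.Amp

/-!
The criteria with moving and with fixed barriers.
-/

open MeasureTheory Set Filter Topology
open scoped ContDiff

namespace Pool.Agent.L5helper76.SB

open H459R3.NS H459R3.EU

section

variable {ν T : ℝ} {u : ℝ → V → V} {p : ℝ → V → ℝ}

theorem hasDerivAt_inv_sq (g T : ℝ) {t : ℝ} (ht : t < T) :
    HasDerivAt (fun s => g / (T - s) ^ 2) (2 * g / (T - t) ^ 3) t := by
  have hT : T - t ≠ 0 := (sub_pos.2 ht).ne'
  have a1 : HasDerivAt (fun s => T - s) (-1) t := by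
    simpa using (hasDerivAt_id t).const_sub T
  have a2 : HasDerivAt (fun s => (T - s) ^ 2) (2 * (T - t) * (-1)) t := by
    have := a1.fun_pow 2
    refine this.congr_deriv ?_
    push_cast
    ring
  have a3 := (hasDerivAt_const t g).fun_div a2 (pow_ne_zero 2 hT)
  refine a3.congr_deriv ?_
  field_simp
  ring

/-- moving barrier, flux form -/
theorem moving_flux (h : IsSol ν T u p) (hν : 0 ≤ ν) {E : ℝ} (hE0 : 0 ≤ E)
    (hE : energy (u 0) ≤ E ^ 2) {t₀ : ℝ} (ht₀ : t₀ ∈ Ico 0 T) {n : ℝ → ℕ}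
    (hn : MonotoneOn n (Ico t₀ T))
    (hr : ∀ t ∈ Ico t₀ T, ∀ᶠ s in 𝓝[>] t, n s = n t)
    (hs : ∀ t ∈ Ico t₀ T, E * G (n t) * (T - t) ≤ 1 / 10 ^ 19)
    (h0 : (T - t₀) ^ 2 * yy (n t₀) (u t₀) ≤ 1 / 10 ^ 19)
    (hf : ∀ t ∈ Ioo t₀ T, (T - t) ^ 3 * fl (n t) (fun i y => u t y i) ≤ 1 / 10 ^ 18) :
    ∃ M, ∀ t ∈ Ico 0 T, dsq (u t) ≤ M := by
  obtain ⟨g, hg⟩ : ∃ g : ℝ, g = 1 / 10 ^ 18 := ⟨_, rfl⟩
  obtain ⟨b, hb⟩ : ∃ b : ℝ → ℝ, b = fun s => g / (T - s) ^ 2 := ⟨_, rfl⟩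
  have hg0 : 0 < g := by rw [hg]; positivity
  have hsb : ∀ t ∈ Ico t₀ T, Real.sqrt (b t) = (1 / 10 ^ 9) / (T - t) := by
    intro t ht
    have hT : 0 < T - t := sub_pos.2 ht.2
    have : b t = ((1 / 10 ^ 9) / (T - t)) ^ 2 := by
      simp only [hb, hg, div_pow]
      norm_num
    rw [this, Real.sqrt_sq (by positivity)]
  have hbd : ∀ t < T, HasDerivAt b (2 * g / (T - t) ^ 3) t := fun t ht => by
    rw [hb]; exact hasDerivAt_inv_sq g T ht
  have key : ∀ t ∈ Ico t₀ T, yy (n t) (u t) ≤ b t := by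
    refine yy_le h hν hE0 hE ht₀.1 hn hr ?_ (b' := fun s => 2 * g / (T - s) ^ 3)
      (fun t ht => hbd t ht.2) ?_ ?_
    · exact (hbd t₀ ht₀.2).continuousAt.continuousWithinAt
    · have hT : 0 < T - t₀ := sub_pos.2 ht₀.2
      have e : b t₀ = g / (T - t₀) ^ 2 := by rw [hb]
      rw [e, lt_div_iff₀ (by positivity)]
      have : (1 : ℝ) / 10 ^ 19 < g := by rw [hg]; norm_num
      rw [mul_comm]
      exact h0.trans_lt this
    · intro t ht _
      have hT : 0 < T - t := sub_pos.2 ht.2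
      have htI : t ∈ Ico t₀ T := ⟨ht.1.le, ht.2⟩
      have h1 := hs t htI
      have h2 := hf t ht
      rw [hsb t htI]
      show _ < 2 * g / (T - t) ^ 3
      rw [lt_div_iff₀ (by positivity)]
      have e : (fl (n t) (fun i y => u t y i) + 10 ^ 8 * (E * G (n t) * b t
          + 1 / 10 ^ 9 / (T - t) * b t)) * (T - t) ^ 3
          = (T - t) ^ 3 * fl (n t) (fun i y => u t y i)
            + 10 ^ 8 * g * (E * G (n t) * (T - t)) + g / 10 := by
        simp only [hb]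
        field_simp
        ring
      rw [e]
      have h3 : 10 ^ 8 * g * (E * G (n t) * (T - t)) ≤ 10 ^ 8 * g * (1 / 10 ^ 19) :=
        mul_le_mul_of_nonneg_left h1 (by positivity)
      have h4 : (T - t) ^ 3 * fl (n t) (fun i y => u t y i) ≤ g := h2.trans hg.ge
      have h5 : (10 : ℝ) ^ 8 * g * (1 / 10 ^ 19) < g / 10 := by rw [hg]; norm_num
      linarith
  refine bounded_of_barrier h hν hE0 hE ht₀ key fun t ht => ?_
  have hT : 0 < T - t := sub_pos.2 ht.2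
  have htI : t ∈ Ico t₀ T := ⟨ht.1.le, ht.2⟩
  rw [hsb t htI]
  have h1 := hs t htI
  have e : 10 ^ 8 * (E * G (n t) + 1 / 10 ^ 9 / (T - t)) * (T - t)
      = 10 ^ 8 * (E * G (n t) * (T - t)) + 1 / 10 := by
    field_simp
  rw [e]
  linarith

theorem G_cube (n : ℕ) : G n ^ 3 = (n : ℝ) ^ 5 * G n * (n : ℝ) ^ 0 := by
  have hn : (0 : ℝ) ≤ n := Nat.cast_nonneg n
  unfold G
  have := Real.sq_sqrt hn
  calc ((n : ℝ) ^ 2 * Real.sqrt n) ^ 3 = (n : ℝ) ^ 6 * Real.sqrt n ^ 2 * Real.sqrt n := by ring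
    _ = _ := by rw [this]; ring

/-- moving barrier, shell form -/
theorem moving_shell {K c : ℝ} (hK : 0 < K) (hc0 : 0 < c) (hc1 : c ≤ 1 / 10 ^ 19)
    (hcK : c * K ≤ 1 / 10 ^ 29) (h : IsSol ν T u p) (hν : 0 ≤ ν) {E : ℝ} (hE0 : 0 ≤ E)
    (hE : energy (u 0) ≤ E ^ 2) {t₀ : ℝ} (ht₀ : t₀ ∈ Ico 0 T) {n : ℝ → ℕ}
    (hn : MonotoneOn n (Ico t₀ T))
    (hr : ∀ t ∈ Ico t₀ T, ∀ᶠ s in 𝓝[>] t, n s = n t)
    (hs : ∀ t ∈ Ico t₀ T, E * G (n t) * (T - t) ≤ c)
    (h0 : (T - t₀) ^ 2 * yy (n t₀) (u t₀) ≤ c)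
    (hf : ∀ t ∈ Ioo t₀ T, (n t : ℝ) * shell (n t) (fun i y => u t y i) ≤ K * E) :
    ∃ M, ∀ t ∈ Ico 0 T, dsq (u t) ≤ M := by
  refine moving_flux h hν hE0 hE ht₀ hn hr (fun t ht => (hs t ht).trans hc1) (h0.trans hc1)
    fun t ht => ?_
  have hT : 0 < T - t := sub_pos.2 ht.2
  have htI : t ∈ Ico t₀ T := ⟨ht.1.le, ht.2⟩
  have hI : t ∈ Ico 0 T := ⟨ht₀.1.trans ht.1.le, ht.2⟩
  have h1 := hs t htI
  have h2 := hf t ht
  have h3 := (le_abs_self _).trans (abs_fl_le (v := fun i y => u t y i) (fun i => h.sp hI i)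
    (fun i => nrm_le_of_energy h hν hE0 hE hI i) (n t))
  have hG := G_nonneg (n t)
  have hnn : (0 : ℝ) ≤ (n t : ℝ) := Nat.cast_nonneg _
  have e1 : E ^ 2 * ((n t : ℝ) ^ 6 * G (n t)) * shell (n t) (fun i y => u t y i)
      = E ^ 2 * ((n t : ℝ) ^ 5 * G (n t)) * ((n t : ℝ) * shell (n t) (fun i y => u t y i)) := by
    ring
  have e2 : E ^ 2 * ((n t : ℝ) ^ 5 * G (n t)) * (K * E) = K * (E * G (n t)) ^ 3 := by
    have := G_cube (n t)
    rw [mul_pow, this]
    ring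
  have h4 : E ^ 2 * ((n t : ℝ) ^ 6 * G (n t)) * shell (n t) (fun i y => u t y i)
      ≤ K * (E * G (n t)) ^ 3 := by
    rw [e1, ← e2]
    exact mul_le_mul_of_nonneg_left h2 (by positivity)
  have h5 : (E * G (n t) * (T - t)) ^ 3 ≤ c := by
    have h6 : (E * G (n t) * (T - t)) ^ 3 ≤ c ^ 3 :=
      pow_le_pow_left₀ (by positivity) h1 3
    have h7 : c ^ 3 ≤ c := by
      have : c ≤ 1 := hc1.trans (by norm_num)
      calc c ^ 3 = c * c ^ 2 := by ring
        _ ≤ c * 1 := by gcongr; nlinarith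
        _ = c := mul_one c
    exact h6.trans h7
  calc (T - t) ^ 3 * fl (n t) (fun i y => u t y i)
      ≤ (T - t) ^ 3 * (10 ^ 11 * (K * (E * G (n t)) ^ 3)) := by
        refine mul_le_mul_of_nonneg_left (h3.trans ?_) (by positivity)
        linarith
    _ = 10 ^ 11 * (K * (E * G (n t) * (T - t)) ^ 3) := by ring
    _ ≤ 10 ^ 11 * (K * c) := by
        have := mul_le_mul_of_nonneg_left h5 hK.le
        linarith
    _ ≤ 1 / 10 ^ 18 := by
        have : 10 ^ 11 * (K * c) ≤ 10 ^ 11 * (1 / 10 ^ 29) := by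
          rw [mul_comm K c]
          linarith
        refine this.trans (by norm_num)

/-- fixed barrier, flux form -/
theorem fixed_flux (h : IsSol ν T u p) (hν : 0 ≤ ν) {E : ℝ} (hE0 : 0 ≤ E)
    (hE : energy (u 0) ≤ E ^ 2) (hT : 0 < T) {n : ℕ}
    (h0 : T ^ 2 * yy n (u 0) < Real.exp (-(10 ^ 8 * E * G n * T + 10 ^ 8 + 1)))
    (hf : ∀ t ∈ Ioo 0 T, T ^ 3 * fl n (fun i y => u t y i)
      < Real.exp (-(10 ^ 8 * E * G n * T + 10 ^ 8 + 1))) :
    ∃ M, ∀ t ∈ Ico 0 T, dsq (u t) ≤ M := by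
  set L : ℝ := 10 ^ 8 * E * G n + (10 ^ 8 + 1) / T with hL
  have hG := G_nonneg n
  have hL0 : 0 < L := by positivity
  have hLT : L * T = 10 ^ 8 * E * G n * T + 10 ^ 8 + 1 := by
    rw [hL]
    field_simp
    ring
  rw [← hLT] at h0 hf
  set ε : ℝ := Real.exp (-(L * T)) / T ^ 2 with hε
  have hε0 : 0 < ε := by positivity
  set b : ℝ → ℝ := fun s => ε * Real.exp (L * s) with hb
  have hbd : ∀ t, HasDerivAt b (L * b t) t := by
    intro t
    have a1 : HasDerivAt (fun s : ℝ => L * s) L t := by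
      simpa using (hasDerivAt_id t).const_mul L
    have a2 := (a1.exp).const_mul ε
    refine a2.congr_deriv ?_
    simp only [hb]
    ring
  have hbT : ∀ t ∈ Ico 0 T, b t ≤ 1 / T ^ 2 := by
    intro t ht
    simp only [hb, hε]
    rw [div_mul_eq_mul_div, ← Real.exp_add]
    refine div_le_div_of_nonneg_right ?_ (by positivity)
    rw [Real.exp_le_one_iff]
    nlinarith [ht.2]
  have hbε : ∀ t ∈ Ico 0 T, ε ≤ b t := by
    intro t ht
    simp only [hb]
    have : (1 : ℝ) ≤ Real.exp (L * t) := Real.one_le_exp (mul_nonneg hL0.le ht.1)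
    nlinarith
  have hsb : ∀ t ∈ Ico 0 T, Real.sqrt (b t) ≤ 1 / T := by
    intro t ht
    rw [Real.sqrt_le_left (by positivity)]
    refine (hbT t ht).trans (le_of_eq ?_)
    rw [div_pow, one_pow]
  have key : ∀ t ∈ Ico 0 T, yy n (u t) ≤ b t := by
    refine yy_le h hν hE0 hE (n := fun _ => n) (b := b) (b' := fun t => L * b t) le_rfl
      (fun _ _ _ _ _ => le_rfl) (fun _ _ => Eventually.of_forall fun _ => rfl) ?_
      (fun t _ => hbd t) ?_ ?_
    · exact (hbd 0).continuousAt.continuousWithinAt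
    · show yy n (u 0) < ε * Real.exp (L * 0)
      rw [mul_zero, Real.exp_zero, mul_one, hε, lt_div_iff₀ (by positivity)]
      linarith
    · intro t ht _
      have htI : t ∈ Ico 0 T := ⟨ht.1.le, ht.2⟩
      have h1 := hf t ht
      have h2 := hbε t htI
      have h3 := hsb t htI
      have hb0 : 0 < b t := hε0.trans_le h2
      have h4 : fl n (fun i y => u t y i) < b t / T := by
        have h5 : fl n (fun i y => u t y i) < ε / T := by
          rw [lt_div_iff₀ hT, hε, lt_div_iff₀ (by positivity)]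
          linarith
        exact h5.trans_le (div_le_div_of_nonneg_right h2 hT.le)
      have h5 : Real.sqrt (b t) * b t ≤ 1 / T * b t := mul_le_mul_of_nonneg_right h3 hb0.le
      calc fl n (fun i y => u t y i) + 10 ^ 8 * (E * G n * b t + Real.sqrt (b t) * b t)
          < b t / T + 10 ^ 8 * (E * G n * b t + 1 / T * b t) := by linarith
        _ = L * b t := by
          rw [hL]
          field_simp
          ring
  -- near T
  set a : ℝ := 10 ^ 8 * (E * G n + 1 / T) with ha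
  have ha0 : 0 < a := by positivity
  obtain ⟨t₁, ht₁, hlt⟩ : ∃ t₁ ∈ Ico 0 T, a * (T - t₁) ≤ 1 := by
    refine ⟨max 0 (T - 1 / a), ⟨le_max_left _ _, max_lt hT (by linarith [one_div_pos.2 ha0])⟩, ?_⟩
    have : T - max 0 (T - 1 / a) ≤ 1 / a := by linarith [le_max_right 0 (T - 1 / a)]
    calc a * (T - max 0 (T - 1 / a)) ≤ a * (1 / a) := mul_le_mul_of_nonneg_left this ha0.le
      _ = 1 := by field_simp
  refine bounded_of_barrier h hν hE0 hE ht₁ (n := fun _ => n) (b := b)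
    (fun t ht => key t ⟨ht₁.1.trans ht.1, ht.2⟩) fun t ht => ?_
  have htI : t ∈ Ico 0 T := ⟨ht₁.1.trans ht.1.le, ht.2⟩
  have hTt : 0 < T - t := sub_pos.2 ht.2
  have h1 := hsb t htI
  calc 10 ^ 8 * (E * G n + Real.sqrt (b t)) * (T - t) ≤ a * (T - t) := by
        refine mul_le_mul_of_nonneg_right ?_ hTt.le
        rw [ha]
        linarith
    _ ≤ a * (T - t₁) := mul_le_mul_of_nonneg_left (by linarith [ht.1]) ha0.le
    _ ≤ 1 := hlt

theorem one_le_G {n : ℕ} (hn : 1 ≤ n) : 1 ≤ G n := by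
  have h1 : (1 : ℝ) ≤ n := by exact_mod_cast hn
  unfold G
  have h2 : 1 ≤ Real.sqrt n := by rwa [Real.one_le_sqrt]
  nlinarith

/-- fixed barrier, shell form -/
theorem fixed_shell (h : IsSol ν T u p) (hν : 0 ≤ ν) {E : ℝ} (hE0 : 0 ≤ E)
    (hE : energy (u 0) ≤ E ^ 2) (hT : 0 < T) {n : ℕ} (hn : 1 ≤ n)
    (h0 : T ^ 2 * yy n (u 0) ≤ Real.exp (-(10 ^ 9 * (1 + E * G n * T))))
    (hf : ∀ t ∈ Ioo 0 T, T * ((n : ℝ) ^ 6 * G n) * shell n (fun i y => u t y i)
      ≤ Real.exp (-(10 ^ 9 * (1 + E * G n * T)))) :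
    ∃ M, ∀ t ∈ Ico 0 T, dsq (u t) ≤ M := by
  have hG := G_nonneg n
  have hG1 := one_le_G hn
  have hx : 0 ≤ E * G n * T := by positivity
  refine fixed_flux h hν hE0 hE hT (n := n) (h0.trans_lt ?_) fun t ht => ?_
  · rw [Real.exp_lt_exp]
    nlinarith
  · have hI : t ∈ Ico 0 T := ⟨ht.1.le, ht.2⟩
    have h3 := (le_abs_self _).trans (abs_fl_le (v := fun i y => u t y i) (fun i => h.sp hI i)
      (fun i => nrm_le_of_energy h hν hE0 hE hI i) n)
    have h4 := hf t ht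
    have h5 : (E * T) ^ 2 ≤ Real.exp (2 * (E * G n * T)) := by
      have h6 : E * T ≤ E * G n * T := by nlinarith [mul_nonneg hE0 hT.le]
      have h7 : E * T ≤ Real.exp (E * G n * T) := by
        have := Real.add_one_le_exp (E * G n * T)
        linarith
      have h8 : 0 ≤ E * T := mul_nonneg hE0 hT.le
      calc (E * T) ^ 2 ≤ Real.exp (E * G n * T) ^ 2 := pow_le_pow_left₀ h8 h7 2
        _ = Real.exp (2 * (E * G n * T)) := by rw [← Real.exp_nat_mul]; norm_num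
    have h9 : (10 : ℝ) ^ 11 ≤ Real.exp (10 ^ 8) := by
      have := Real.add_one_le_exp ((10 : ℝ) ^ 8 / 2)
      have h10 : Real.exp ((10 : ℝ) ^ 8) = Real.exp ((10 : ℝ) ^ 8 / 2) ^ 2 := by
        rw [← Real.exp_nat_mul]; norm_num
      rw [h10]
      calc (10 : ℝ) ^ 11 ≤ ((10 : ℝ) ^ 8 / 2 + 1) ^ 2 := by norm_num
        _ ≤ _ := pow_le_pow_left₀ (by positivity) this 2
    calc T ^ 3 * fl n (fun i y => u t y i)
        ≤ T ^ 3 * (10 ^ 11 * (E ^ 2 * ((n : ℝ) ^ 6 * G n) * shell n (fun i y => u t y i))) :=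
          mul_le_mul_of_nonneg_left h3 (by positivity)
      _ = 10 ^ 11 * (E * T) ^ 2 * (T * ((n : ℝ) ^ 6 * G n) * shell n (fun i y => u t y i)) := by
          ring
      _ ≤ Real.exp (10 ^ 8) * Real.exp (2 * (E * G n * T))
            * Real.exp (-(10 ^ 9 * (1 + E * G n * T))) := by
          have hS := shell_nonneg n (fun i y => u t y i)
          gcongr
      _ = Real.exp (10 ^ 8 + 2 * (E * G n * T) + -(10 ^ 9 * (1 + E * G n * T))) := by
          rw [← Real.exp_add, ← Real.exp_add]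
      _ < Real.exp (-(10 ^ 8 * E * G n * T + 10 ^ 8 + 1)) := by
          rw [Real.exp_lt_exp]
          nlinarith

end

/-! ### the largest barrier -/

theorem G_eq (n : ℕ) : G n = (n : ℝ) ^ (5 / 2 : ℝ) := by
  have hn : (0 : ℝ) ≤ n := Nat.cast_nonneg n
  unfold G
  rw [Real.sqrt_eq_rpow, ← Real.rpow_natCast, ← Real.rpow_add_of_nonneg hn (by norm_num)
    (by norm_num)]
  norm_num

/-- the barrier `⌊(c / (E (T - t)))^(2/5)⌋` -/
noncomputable def bar (c E T t : ℝ) : ℕ := ⌊(c / (E * (T - t))) ^ (2 / 5 : ℝ)⌋₊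

theorem bar_small {c E T : ℝ} (hc : 0 < c) (hE : 0 < E) {t : ℝ} (ht : t < T) :
    E * G (bar c E T t) * (T - t) ≤ c := by
  have hT : 0 < T - t := sub_pos.2 ht
  have hx : 0 < c / (E * (T - t)) := by positivity
  have h1 : ((bar c E T t : ℕ) : ℝ) ≤ (c / (E * (T - t))) ^ (2 / 5 : ℝ) :=
    Nat.floor_le (by positivity)
  have h2 : G (bar c E T t) ≤ c / (E * (T - t)) := by
    rw [G_eq]
    calc ((bar c E T t : ℕ) : ℝ) ^ (5 / 2 : ℝ)
        ≤ ((c / (E * (T - t))) ^ (2 / 5 : ℝ)) ^ (5 / 2 : ℝ) :=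
          Real.rpow_le_rpow (Nat.cast_nonneg _) h1 (by norm_num)
      _ = c / (E * (T - t)) := by
          rw [← Real.rpow_mul hx.le]
          norm_num
  rw [le_div_iff₀ (by positivity)] at h2
  linarith

theorem bar_arg_mono {c E T : ℝ} (hc : 0 < c) (hE : 0 < E) {s t : ℝ} (hst : s ≤ t) (ht : t < T) :
    (c / (E * (T - s))) ^ (2 / 5 : ℝ) ≤ (c / (E * (T - t))) ^ (2 / 5 : ℝ) := by
  have hT : 0 < T - t := sub_pos.2 ht
  have hS : 0 < T - s := by linarith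
  refine Real.rpow_le_rpow (by positivity) ?_ (by norm_num)
  refine div_le_div_of_nonneg_left hc.le (by positivity) ?_
  exact mul_le_mul_of_nonneg_left (by linarith) hE.le

theorem bar_mono {c E T : ℝ} (hc : 0 < c) (hE : 0 < E) (t₀ : ℝ) :
    MonotoneOn (bar c E T) (Ico t₀ T) := fun _ _ _ ht hst =>
  Nat.floor_le_floor (bar_arg_mono hc hE hst ht.2)

theorem bar_right {c E T : ℝ} (hc : 0 < c) (hE : 0 < E) {t : ℝ} (ht : t < T) :
    ∀ᶠ s in 𝓝[>] t, bar c E T s = bar c E T t := by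
  have hT : 0 < T - t := sub_pos.2 ht
  set f : ℝ → ℝ := fun s => (c / (E * (T - s))) ^ (2 / 5 : ℝ) with hf
  have hc' : ContinuousAt f t := by
    refine ContinuousAt.rpow_const ?_ (Or.inr (by norm_num))
    refine ContinuousAt.div continuousAt_const (by fun_prop) ?_
    positivity
  have h1 : f t < (⌊f t⌋₊ : ℝ) + 1 := Nat.lt_floor_add_one _
  have h2 : ∀ᶠ s in 𝓝[>] t, f s < (⌊f t⌋₊ : ℝ) + 1 :=
    (hc'.eventually (gt_mem_nhds h1)).filter_mono nhdsWithin_le_nhds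
  filter_upwards [h2, Ioo_mem_nhdsGT ht] with s hs hs2
  have h3 : f t ≤ f s := bar_arg_mono hc hE hs2.1.le hs2.2
  have hft : 0 ≤ f t := by simp only [hf]; positivity
  show ⌊f s⌋₊ = ⌊f t⌋₊
  rw [Nat.floor_eq_iff (hft.trans h3)]
  exact ⟨(Nat.floor_le hft).trans h3, hs⟩

end Pool.Agent.L5helper76.SB
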