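import Pool.Agent.L5helper76.SB.Bern

/-!
The growth of the third derivatives of the high frequencies.
-/

open MeasureTheory Set Filter Topology
open scoped ContDiff

namespace Pool.Agent.L5helper76.SB

open H459R3.NS H459R3.EU

/-! ### numbers -/

noncomputable def G (n : ℕ) : ℝ := (n : ℝ) ^ 2 * Real.sqrt n

theorem G_nonneg (n : ℕ) : 0 ≤ G n := by unfold G; positivity

theorem a1 (n : ℕ) : (n : ℝ) * Real.sqrt ((2 * n + 1) ^ 3) ≤ 26 / 5 * G n := by
  rcases Nat.eq_zero_or_pos n with h | h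
  · subst h; simp [G]
  · have h1 : (1 : ℝ) ≤ n := by exact_mod_cast h
    have h2 : Real.sqrt ((2 * n + 1) ^ 3) ≤ 26 / 5 * (n * Real.sqrt n) := by
      rw [Real.sqrt_le_left (by positivity)]
      have e : (26 / 5 * ((n : ℝ) * Real.sqrt n)) ^ 2 = 676 / 25 * (n : ℝ) ^ 3 := by
        rw [mul_pow, mul_pow, Real.sq_sqrt (by positivity)]
        ring
      rw [e]
      have h3 : (2 * (n : ℝ) + 1) ^ 3 ≤ (3 * n) ^ 3 := by gcongr; linarith
      nlinarith [pow_pos (show (0 : ℝ) < n by linarith) 3]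
    unfold G
    nlinarith [mul_le_mul_of_nonneg_left h2 (show (0 : ℝ) ≤ n by linarith)]

theorem a2 (n : ℕ) : (n : ℝ) ^ 3 * Real.sqrt (52 / ((n : ℝ) + 1)) ≤ 73 / 10 * G n := by
  have hn : (0 : ℝ) ≤ n := Nat.cast_nonneg n
  have h : (n : ℝ) ^ 3 * Real.sqrt (52 / ((n : ℝ) + 1)) ≤ 73 / 10 * ((n : ℝ) ^ 2 * Real.sqrt n) := by
    refine (pow_le_pow_iff_left₀ (by positivity) (by positivity) two_ne_zero).1 ?_
    rw [mul_pow, mul_pow, mul_pow, Real.sq_sqrt (by positivity), Real.sq_sqrt hn,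
      mul_div_assoc', div_le_iff₀ (by positivity)]
    nlinarith [pow_nonneg hn 5, pow_nonneg hn 6]
  exact h

theorem a3 (n : ℕ) : (n : ℝ) ^ 4 * (Real.sqrt (52 / ((n : ℝ) + 1)) / ((n : ℝ) + 1))
    ≤ 73 / 10 * G n := by
  have hn : (0 : ℝ) ≤ n := Nat.cast_nonneg n
  refine le_trans ?_ (a2 n)
  have hs := Real.sqrt_nonneg (52 / ((n : ℝ) + 1))
  rw [mul_div_assoc', div_le_iff₀ (by positivity)]
  nlinarith [mul_nonneg (pow_nonneg hn 3) hs]

theorem a4 (n : ℕ) : Real.sqrt (52 / ((n : ℝ) + 1)) ≤ 73 / 10 := by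
  have hn : (0 : ℝ) ≤ n := Nat.cast_nonneg n
  rw [Real.sqrt_le_left (by norm_num), div_le_iff₀ (by positivity)]
  nlinarith

theorem two_pi_le : 2 * Real.pi ≤ 63 / 10 := by
  have := Real.pi_lt_d2
  linarith

/-! ### bounds for the two parts -/

theorem nrm_lw_le (n : ℕ) {f : V → ℝ} (hf : SP f) : nrm (lw n f) ≤ nrm f := by
  have h : nrm (lw n f) ^ 2 ≤ nrm f ^ 2 := by
    rw [nrm_eq_n2 (sp_lw n f), nrm_eq_n2 hf, n2_sq, n2_sq]
    refine Summable.tsum_le_tsum (fun k => ?_) (summable_sq (rap_fr (sp_lw n f)).summable)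
      (summable_sq (rap_fr hf).summable)
    rw [fr_lw]
    split_ifs
    · exact le_rfl
    · simp
  exact (pow_le_pow_iff_left₀ (nrm_nonneg _) (nrm_nonneg _) two_ne_zero).1 h

theorem lw_supp (n : ℕ) (f : V → ℝ) (k : K3) (hk : n < N k) : fr (lw n f) k = 0 := by
  rw [fr_lw, if_neg (by omega)]

theorem pd_supp {g : V → ℝ} (hg' : SP g) {n : ℕ} (h : ∀ k, n < N k → fr g k = 0) (j : Fin 3)
    (k : K3) (hk : n < N k) : fr (pd j g) k = 0 := by
  rw [fr_pd hg', D, h k hk, mul_zero]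

theorem nrm_low_pd (n : ℕ) {f : V → ℝ} (hf : SP f) (j : Fin 3) :
    nrm (pd j (lw n f)) ≤ 63 / 10 * n * nrm f := by
  refine (nrm_pd_le (sp_lw n f) (lw_supp n f) j).trans ?_
  have h1 := nrm_lw_le n hf
  have h2 := two_pi_le
  have h3 := nrm_nonneg (lw n f)
  have hn : (0 : ℝ) ≤ n := Nat.cast_nonneg n
  calc 2 * Real.pi * n * nrm (lw n f) ≤ 63 / 10 * n * nrm (lw n f) := by gcongr
    _ ≤ 63 / 10 * n * nrm f := by gcongr

theorem nrm_pd_le' {g : V → ℝ} (hg : SP g) {n : ℕ} (h : ∀ k, n < N k → fr g k = 0) (j : Fin 3) :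
    nrm (pd j g) ≤ 63 / 10 * n * nrm g := by
  refine (nrm_pd_le hg h j).trans ?_
  have h2 := two_pi_le
  have h3 := nrm_nonneg g
  gcongr

theorem nrm_d3_le {g : V → ℝ} (hg : SP g) {n : ℕ} (h : ∀ k, n < N k → fr g k = 0)
    (i j k : Fin 3) : nrm (d3 i j k g) ≤ (63 / 10 * n) ^ 3 * nrm g := by
  have h1 := nrm_pd_le' hg h k
  have h2 := nrm_pd_le' (hg.pd k) (pd_supp hg h k) j
  have h3 := nrm_pd_le' ((hg.pd k).pd j) (pd_supp (hg.pd k) (pd_supp hg h k) j) i
  have hn : (0 : ℝ) ≤ 63 / 10 * n := by positivity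
  unfold d3
  calc nrm (pd i (pd j (pd k g))) ≤ 63 / 10 * n * nrm (pd j (pd k g)) := h3
    _ ≤ 63 / 10 * n * (63 / 10 * n * nrm (pd k g)) := by gcongr
    _ ≤ 63 / 10 * n * (63 / 10 * n * (63 / 10 * n * nrm g)) := by gcongr
    _ = _ := by ring

theorem d3_supp {g : V → ℝ} (hg' : SP g) {n : ℕ} (h : ∀ k, n < N k → fr g k = 0) (i j l : Fin 3)
    (k : K3) (hk : n < N k) : fr (d3 i j l g) k = 0 :=
  pd_supp ((hg'.pd l).pd j) (pd_supp (hg'.pd l) (pd_supp hg' h l) j) i k hk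

/-- sup of the gradient of the low frequencies -/
theorem sup_pd_low (n : ℕ) {f : V → ℝ} (hf : SP f) (j : Fin 3) (x : V) :
    |pd j (lw n f) x| ≤ 33 * G n * nrm f := by
  have h1 := sup_low ((sp_lw n f).pd j) (pd_supp (sp_lw n f) (lw_supp n f) j) x
  have h2 := nrm_low_pd n hf j
  have h3 := a1 n
  have h4 := nrm_nonneg f
  calc |pd j (lw n f) x| ≤ Real.sqrt ((2 * n + 1) ^ 3) * (63 / 10 * n * nrm f) :=
        h1.trans (mul_le_mul_of_nonneg_left h2 (Real.sqrt_nonneg _))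
    _ = 63 / 10 * (n * Real.sqrt ((2 * n + 1) ^ 3)) * nrm f := by ring
    _ ≤ 63 / 10 * (26 / 5 * G n) * nrm f := by gcongr
    _ ≤ 33 * G n * nrm f := by
      have := mul_nonneg (G_nonneg n) h4
      nlinarith

theorem t3_le {v : Fin 3 → V → ℝ} (l : Fin 3) : t3 (v l) ≤ Real.sqrt (dsq (fun x i => v i x)) := by
  unfold t3 dsq
  refine Real.sqrt_le_sqrt ?_
  refine le_trans ?_ (Finset.single_le_sum
      (f := fun l => ∑ i, ∑ j, ∑ k, ∫ x in cube, d3 i j k (v l) x ^ 2)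
      (fun _ _ => Finset.sum_nonneg fun _ _ => Finset.sum_nonneg fun _ _ =>
        Finset.sum_nonneg fun _ _ => integral_nonneg fun _ => sq_nonneg _) (Finset.mem_univ l))
  refine Finset.sum_le_sum fun m _ => ?_
  refine le_trans ?_ (Finset.single_le_sum
      (f := fun j => ∑ k, ∫ x in cube, d3 m j k (v l) x ^ 2)
      (fun _ _ => Finset.sum_nonneg fun _ _ => integral_nonneg fun _ => sq_nonneg _)
      (Finset.mem_univ m))
  exact Finset.single_le_sum (f := fun k => ∫ x in cube, d3 m m k (v l) x ^ 2)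
    (fun _ _ => integral_nonneg fun _ => sq_nonneg _) (Finset.mem_univ m)

theorem hg_supp (n : ℕ) {f : V → ℝ} (hf : SP f) (k : K3) (hk : N k ≤ n) : fr (hg n f) k = 0 := by
  rw [fr_hg n hf, if_pos hk]

theorem abs_Tr_le {a b c : Fin 3 → V → ℝ} {A M W : ℝ} (ha : ∀ i, SP (a i)) (hb : ∀ i, SP (b i))
    (hc : ∀ i, SP (c i)) (hA : ∀ i x, |a i x| ≤ A)
    (hM : ∀ l i j k n, nrm (pd n (d3 i j k (b l))) ≤ M)
    (hW : ∀ l i j k, nrm (d3 i j k (c l)) ≤ W) : |Tr a b c| ≤ 243 * (A * M * W) := by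
  have hA0 : 0 ≤ A := (abs_nonneg _).trans (hA 0 0)
  have hM0 : 0 ≤ M := (nrm_nonneg _).trans (hM 0 0 0 0 0)
  have hE : ∀ l i j k, |∫ x in cube, cv a (fun l => d3 i j k (b l)) l x * d3 i j k (c l) x|
      ≤ 3 * (A * M * W) := by
    intro l i j k
    have s1 : SP (cv a (fun l => d3 i j k (b l)) l) := sp_cv ha (fun l => sp_d3 (hb l) i j k) l
    refine (abs_int_mul_le s1.cont (sp_d3 (hc l) i j k).cont).trans ?_
    have h1 : nrm (cv a (fun l => d3 i j k (b l)) l) ≤ 3 * (A * M) := by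
      unfold cv
      refine (nrm_sum_le fun n => ((ha n).mul ((sp_d3 (hb l) i j k).pd n)).cont).trans ?_
      have : ∀ n, nrm (fun x => a n x * pd n (d3 i j k (b l)) x) ≤ A * M := fun n =>
        (nrm_mul_le (ha n).cont ((sp_d3 (hb l) i j k).pd n).cont (hA n)).trans
          (mul_le_mul_of_nonneg_left (hM l i j k n) hA0)
      refine (Finset.sum_le_sum fun n _ => this n).trans ?_
      rw [Finset.sum_const, Finset.card_univ, Fintype.card_fin, nsmul_eq_mul]
      push_cast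
      exact le_rfl
    calc _ ≤ 3 * (A * M) * W :=
          mul_le_mul h1 (hW l i j k) (nrm_nonneg _) (by positivity)
      _ = _ := by ring
  unfold Tr
  refine (Finset.abs_sum_le_sum_abs _ _).trans ?_
  have h1 : ∀ l, |∑ i, ∑ j, ∑ k, ∫ x in cube, cv a (fun l => d3 i j k (b l)) l x * d3 i j k (c l) x|
      ≤ 27 * (3 * (A * M * W)) := by
    intro l
    refine (Finset.abs_sum_le_sum_abs _ _).trans ?_
    have h2 : ∀ i, |∑ j, ∑ k, ∫ x in cube, cv a (fun l => d3 i j k (b l)) l x * d3 i j k (c l) x|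
        ≤ 9 * (3 * (A * M * W)) := by
      intro i
      refine (Finset.abs_sum_le_sum_abs _ _).trans ?_
      have h3 : ∀ j, |∑ k, ∫ x in cube, cv a (fun l => d3 i j k (b l)) l x * d3 i j k (c l) x|
          ≤ 3 * (3 * (A * M * W)) := by
        intro j
        refine (Finset.abs_sum_le_sum_abs _ _).trans
          ((Finset.sum_le_sum fun k _ => hE l i j k).trans ?_)
        rw [Finset.sum_const, Finset.card_univ, Fintype.card_fin, nsmul_eq_mul]
        push_cast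
        exact le_rfl
      refine (Finset.sum_le_sum fun j _ => h3 j).trans ?_
      rw [Finset.sum_const, Finset.card_univ, Fintype.card_fin, nsmul_eq_mul]
      push_cast
      linarith
    refine (Finset.sum_le_sum fun i _ => h2 i).trans ?_
    rw [Finset.sum_const, Finset.card_univ, Fintype.card_fin, nsmul_eq_mul]
    push_cast
    linarith
  refine (Finset.sum_le_sum fun l _ => h1 l).trans ?_
  rw [Finset.sum_const, Finset.card_univ, Fintype.card_fin, nsmul_eq_mul]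
  push_cast
  linarith

/-! ### the main estimate -/

section main

variable {v : Fin 3 → V → ℝ} {n : ℕ} {E : ℝ}

/-- the low part -/
noncomputable def lo (n : ℕ) (v : Fin 3 → V → ℝ) : Fin 3 → V → ℝ := fun i => lw n (v i)

/-- the high part -/
noncomputable def hi (n : ℕ) (v : Fin 3 → V → ℝ) : Fin 3 → V → ℝ := fun i => hg n (v i)

theorem sp_lo (n : ℕ) (v : Fin 3 → V → ℝ) (i : Fin 3) : SP (lo n v i) := sp_lw n _

theorem sp_hi (hv : ∀ i, SP (v i)) (n : ℕ) (i : Fin 3) : SP (hi n v i) := sp_hg n (hv i)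

theorem lw_zero (n : ℕ) : lw n (fun _ => (0 : ℝ)) = fun _ => 0 := by
  have hz : ∀ k, fr (fun _ : V => (0 : ℝ)) k = 0 := fun k => by simp [fr, fc]
  funext x
  unfold lw
  simp [hz]

theorem div_lo (hv : ∀ i, SP (v i)) (hdiv : ∀ x, ∑ i, pd i (v i) x = 0) (n : ℕ) (x : V) :
    ∑ i, pd i (lo n v i) x = 0 := by
  have e : (fun x => ∑ i, pd i (lo n v i) x) = lw n (fun x => ∑ i, pd i (v i) x) := by
    have s1 : SP (fun x => ∑ i, pd i (lo n v i) x) := SP.sum fun i _ => (sp_lo n v i).pd i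
    have s2 : SP (fun x => ∑ i, pd i (v i) x) := SP.sum fun i _ => (hv i).pd i
    refine sp_ext s1 (sp_lw n _) fun k => ?_
    rw [fr_lw, fr_sum fun i _ => (sp_lo n v i).pd i, fr_sum fun i _ => (hv i).pd i]
    by_cases hk : N k ≤ n
    · rw [if_pos hk]
      refine Finset.sum_congr rfl fun i _ => ?_
      rw [lo, pd_lw n (hv i), fr_lw, if_pos hk]
    · rw [if_neg hk]
      refine Finset.sum_eq_zero fun i _ => ?_
      rw [lo, pd_lw n (hv i), fr_lw, if_neg hk]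
  have h1 : ∑ i, pd i (lo n v i) x = lw n (fun x => ∑ i, pd i (v i) x) x := congrFun e x
  rw [h1, show (fun x => ∑ i, pd i (v i) x) = fun _ => 0 from funext hdiv, lw_zero]

theorem div_hi (hv : ∀ i, SP (v i)) (hdiv : ∀ x, ∑ i, pd i (v i) x = 0) (n : ℕ) (x : V) :
    ∑ i, pd i (hi n v i) x = 0 := by
  have e : ∀ i, pd i (hi n v i) x = pd i (v i) x - pd i (lo n v i) x := fun i => by
    have := congrFun (pd_sub (hv i) (sp_lo n v i) i) x
    exact this
  simp_rw [e]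
  rw [Finset.sum_sub_distrib, hdiv x, div_lo hv hdiv n x, sub_zero]

theorem lo_add_hi (n : ℕ) (v : Fin 3 → V → ℝ) (i : Fin 3) (x : V) :
    lo n v i x + hi n v i x = v i x := by
  unfold lo hi hg; ring

/-- the root of the third order norm of the high part -/
noncomputable def YY (n : ℕ) (v : Fin 3 → V → ℝ) : ℝ := Real.sqrt (dsq (fun x i => hi n v i x))

theorem YY_nonneg (n : ℕ) (v : Fin 3 → V → ℝ) : 0 ≤ YY n v := Real.sqrt_nonneg _

theorem BD_lo (hv : ∀ i, SP (v i)) (hE : ∀ i, nrm (v i) ≤ E) :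
    BD (lo n v) (33 * G n * E) ((63 / 10 * n) ^ 3 * E) where
  sp := sp_lo n v
  z := fun i j x => by
    refine (sup_pd_low n (hv i) j x).trans ?_
    exact mul_le_mul_of_nonneg_left (hE i) (mul_nonneg (by norm_num) (G_nonneg n))
  X := fun l i j k => by
    refine (nrm_d3_le (sp_lw n (v l)) (lw_supp n (v l)) i j k).trans ?_
    exact mul_le_mul_of_nonneg_left ((nrm_lw_le n (hv l)).trans (hE l)) (by positivity)

theorem BD_hi (hv : ∀ i, SP (v i)) :
    BD (hi n v) (63 / 10 * Real.sqrt (52 / ((n : ℝ) + 1)) * YY n v) (YY n v) where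
  sp := sp_hi hv n
  z := fun i j x => by
    refine (sup_pd_high (sp_hg n (hv i)) (hg_supp n (hv i)) j x).trans ?_
    have h1 : t3 (hg n (v i)) ≤ YY n v := t3_le (v := hi n v) i
    have h2 := two_pi_le
    have h3 := Real.sqrt_nonneg (52 / ((n : ℝ) + 1))
    have h4 := t3_nonneg (hg n (v i))
    calc 2 * Real.pi * Real.sqrt (52 / ((n : ℝ) + 1)) * t3 (hg n (v i))
        ≤ 63 / 10 * Real.sqrt (52 / ((n : ℝ) + 1)) * t3 (hg n (v i)) := by gcongr
      _ ≤ 63 / 10 * Real.sqrt (52 / ((n : ℝ) + 1)) * YY n v := by gcongr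
  X := fun l i j k => nrm_le_third (fun x i => hi n v i x) l i j k

theorem cv_split (hv : ∀ i, SP (v i)) (n : ℕ) :
    cv v v = fun l x => (cv (lo n v) (lo n v) l x + cv (lo n v) (hi n v) l x)
      + (cv (hi n v) (lo n v) l x + cv (hi n v) (hi n v) l x) := by
  funext l x
  unfold cv
  rw [← Finset.sum_add_distrib, ← Finset.sum_add_distrib, ← Finset.sum_add_distrib]
  refine Finset.sum_congr rfl fun m _ => ?_
  have e1 : pd m (v l) x = pd m (lo n v l) x + pd m (hi n v l) x := by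
    have h : pd m (hi n v l) x = pd m (v l) x - pd m (lo n v l) x :=
      congrFun (pd_sub (hv l) (sp_lo n v l) m) x
    rw [h]; ring
  rw [e1, ← lo_add_hi n v m x]
  ring

/-- The rate at which the self-interaction of the low frequencies feeds the third derivatives
of the high frequencies. -/
noncomputable def fl (n : ℕ) (v : Fin 3 → V → ℝ) : ℝ := -2 * Q3 (cv (lo n v) (lo n v)) (hi n v)

theorem key (hv : ∀ i, SP (v i)) (hdiv : ∀ x, ∑ i, pd i (v i) x = 0)
    (hE : ∀ i, nrm (v i) ≤ E) :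
    -2 * Q3 (cv v v) (hi n v) ≤ fl n v + 10 ^ 8 * (E * G n * YY n v ^ 2 + YY n v ^ 3) := by
  have hE0 : 0 ≤ E := (nrm_nonneg _).trans (hE 0)
  have hY := YY_nonneg n v
  have hG := G_nonneg n
  have hL := BD_lo (n := n) hv hE
  have hH := BD_hi (n := n) hv
  set Y := YY n v with hYdef
  set z : ℝ := 33 * G n * E with hz
  set X : ℝ := (63 / 10 * n) ^ 3 * E with hX
  set s : ℝ := Real.sqrt (52 / ((n : ℝ) + 1)) with hs
  set β : ℝ := 63 / 10 * s * Y with hβ
  have hs0 : 0 ≤ s := Real.sqrt_nonneg _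
  have b1 : β * X ≤ 12000 * (E * G n * Y) := by
    have e : β * X = (63 / 10) ^ 4 * ((n : ℝ) ^ 3 * s) * (E * Y) := by rw [hβ, hX]; ring
    rw [e]
    have := a2 n
    have h0 : 0 ≤ E * Y := mul_nonneg hE0 hY
    calc (63 / 10) ^ 4 * ((n : ℝ) ^ 3 * s) * (E * Y) ≤ (63 / 10) ^ 4 * (73 / 10 * G n) * (E * Y) := by
          gcongr
      _ ≤ 12000 * (E * G n * Y) := by nlinarith [mul_nonneg hG h0]
  have b2 : z * Y = 33 * (E * G n * Y) := by rw [hz]; ring
  have b3 : β * Y ≤ 46 * Y ^ 2 := by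
    have := a4 n
    have h2 : s * Y ^ 2 ≤ 73 / 10 * Y ^ 2 := mul_le_mul_of_nonneg_right this (sq_nonneg _)
    rw [hβ]
    nlinarith [sq_nonneg Y]
  -- the four terms
  have sLL : ∀ l, SP (cv (lo n v) (lo n v) l) := sp_cv (sp_lo n v) (sp_lo n v)
  have sLH : ∀ l, SP (cv (lo n v) (hi n v) l) := sp_cv (sp_lo n v) (sp_hi hv n)
  have sHL : ∀ l, SP (cv (hi n v) (lo n v) l) := sp_cv (sp_hi hv n) (sp_lo n v)
  have sHH : ∀ l, SP (cv (hi n v) (hi n v) l) := sp_cv (sp_hi hv n) (sp_hi hv n)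
  have hdec : Q3 (cv v v) (hi n v) = (Q3 (cv (lo n v) (lo n v)) (hi n v)
      + Q3 (cv (lo n v) (hi n v)) (hi n v)) + (Q3 (cv (hi n v) (lo n v)) (hi n v)
      + Q3 (cv (hi n v) (hi n v)) (hi n v)) := by
    rw [cv_split hv n, Q3_add_left (fun l => (sLL l).add (sLH l)) (fun l => (sHL l).add (sHH l))
      (sp_hi hv n), Q3_add_left sLL sLH (sp_hi hv n), Q3_add_left sHL sHH (sp_hi hv n)]
  have t1 := abs_le.1 (abs_sub_Tr hL hH (sp_hi hv n) hH.X)
  rw [Tr_self (sp_lo n v) (div_lo hv hdiv n) (sp_hi hv n), sub_zero] at t1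
  have t2 := abs_le.1 (abs_sub_Tr hH hL (sp_hi hv n) hH.X)
  have t3' := abs_le.1 (abs_sub_Tr hH hH (sp_hi hv n) hH.X)
  rw [Tr_self (sp_hi hv n) (div_hi hv hdiv n) (sp_hi hv n), sub_zero] at t3'
  have t4 := abs_le.1 (abs_Tr_le (a := hi n v) (b := lo n v) (c := hi n v)
    (A := s / ((n : ℝ) + 1) * Y) (M := (63 / 10 * n) ^ 4 * E) (W := Y)
    (sp_hi hv n) (sp_lo n v) (sp_hi hv n) (fun i x => by
      refine (sup_high (sp_hg n (hv i)) (hg_supp n (hv i)) x).trans ?_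
      have h1 : t3 (hg n (v i)) ≤ Y := t3_le (v := hi n v) i
      gcongr) (fun l i j k m => by
      have h0 : lo n v l = lw n (v l) := rfl
      rw [h0]
      refine (nrm_pd_le' (sp_d3 (sp_lw n (v l)) i j k)
        (d3_supp (sp_lw n (v l)) (lw_supp n (v l)) i j k) m).trans ?_
      have h1 := nrm_d3_le (sp_lw n (v l)) (lw_supp n (v l)) i j k
      have h2 := (nrm_lw_le n (hv l)).trans (hE l)
      calc 63 / 10 * n * nrm (d3 i j k (lw n (v l)))
          ≤ 63 / 10 * n * ((63 / 10 * n) ^ 3 * nrm (lw n (v l))) := by gcongr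
        _ ≤ 63 / 10 * n * ((63 / 10 * n) ^ 3 * E) := by gcongr
        _ = _ := by ring) hH.X)
  have b4 : s / ((n : ℝ) + 1) * Y * ((63 / 10 * n) ^ 4 * E) ≤ 12000 * (E * G n * Y) := by
    have e : s / ((n : ℝ) + 1) * Y * ((63 / 10 * n) ^ 4 * E)
        = (63 / 10) ^ 4 * ((n : ℝ) ^ 4 * (s / ((n : ℝ) + 1))) * (E * Y) := by ring
    rw [e]
    have := a3 n
    have h0 : 0 ≤ E * Y := mul_nonneg hE0 hY
    calc (63 / 10) ^ 4 * ((n : ℝ) ^ 4 * (s / ((n : ℝ) + 1))) * (E * Y)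
        ≤ (63 / 10) ^ 4 * (73 / 10 * G n) * (E * Y) := by gcongr
      _ ≤ 12000 * (E * G n * Y) := by nlinarith [mul_nonneg hG h0]
  have c1 : (z * Y + β * X) * Y ≤ 12033 * (E * G n * Y ^ 2) := by
    have : (z * Y + β * X) * Y ≤ (33 * (E * G n * Y) + 12000 * (E * G n * Y)) * Y :=
      mul_le_mul_of_nonneg_right (by rw [b2]; linarith) hY
    linarith [this, show (33 * (E * G n * Y) + 12000 * (E * G n * Y)) * Y
      = 12033 * (E * G n * Y ^ 2) by ring]
  have c1' : (β * X + z * Y) * Y ≤ 12033 * (E * G n * Y ^ 2) := by linarith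
  have c2 : (β * Y + β * Y) * Y ≤ 92 * Y ^ 3 := by
    have : (β * Y + β * Y) * Y ≤ (46 * Y ^ 2 + 46 * Y ^ 2) * Y :=
      mul_le_mul_of_nonneg_right (by linarith) hY
    linarith [this, show (46 * Y ^ 2 + 46 * Y ^ 2) * Y = 92 * Y ^ 3 by ring]
  have c3 : s / ((n : ℝ) + 1) * Y * ((63 / 10 * n) ^ 4 * E) * Y ≤ 12000 * (E * G n * Y ^ 2) := by
    have := mul_le_mul_of_nonneg_right b4 hY
    linarith [this, show 12000 * (E * G n * Y) * Y = 12000 * (E * G n * Y ^ 2) by ring]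
  have p1 : 0 ≤ E * G n * Y ^ 2 := by positivity
  have p2 : 0 ≤ Y ^ 3 := by positivity
  unfold fl
  rw [hdec]
  nlinarith [t1.1, t2.1, t3'.1, t4.1]

end main

end Pool.Agent.L5helper76.SB
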