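import Pool.Agent.H459R3.EU.Main

/-!
The low-pass filter for smooth periodic functions.
-/

open MeasureTheory Set Filter Topology
open scoped ContDiff

namespace Pool.Agent.L5helper76.SB

open H459R3.NS H459R3.EU

/-- the frequencies `k` with `|k j| ≤ n` -/
noncomputable def bx (n : ℕ) : Finset K3 := Fintype.piFinset fun _ => Finset.Icc (-(n : ℤ)) n

theorem mem_bx {n : ℕ} {k : K3} : k ∈ bx n ↔ N k ≤ n := by
  unfold bx
  rw [Fintype.mem_piFinset, N_le_iff]
  refine forall_congr' fun j => ?_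
  rw [Finset.mem_Icc, abs_le]

theorem card_bx (n : ℕ) : (bx n).card = (2 * n + 1) ^ 3 := by
  unfold bx
  rw [Fintype.card_piFinset]
  simp only [Int.card_Icc, Finset.prod_const, Finset.card_univ, Fintype.card_fin]
  congr 1
  omega

theorem fr_neg (f : V → ℝ) (k : K3) : fr f (-k) = (starRingEnd ℂ) (fr f k) := by
  unfold fr fc
  rw [neg_neg, ← integral_conj]
  congr 1
  funext x
  rw [map_mul, Complex.conj_ofReal, ← ee_neg, neg_neg]

theorem fr_add {f g : V → ℝ} (hf : SP f) (hg : SP g) (k : K3) :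
    fr (fun x => f x + g x) k = fr f k + fr g k := by
  unfold fr fc
  rw [← integral_add]
  · congr 1
    funext x
    push_cast
    ring
  · exact integrableOn_cube ((ee_continuous _).mul (contDiff_ofReal hf.smooth).continuous)
  · exact integrableOn_cube ((ee_continuous _).mul (contDiff_ofReal hg.smooth).continuous)

theorem fr_sub {f g : V → ℝ} (hf : SP f) (hg : SP g) (k : K3) :
    fr (fun x => f x - g x) k = fr f k - fr g k := by
  unfold fr fc
  rw [← integral_sub]
  · congr 1
    funext x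
    push_cast
    ring
  · exact integrableOn_cube ((ee_continuous _).mul (contDiff_ofReal hf.smooth).continuous)
  · exact integrableOn_cube ((ee_continuous _).mul (contDiff_ofReal hg.smooth).continuous)

theorem sp_ext {f g : V → ℝ} (hf : SP f) (hg : SP g) (h : ∀ k, fr f k = fr g k) : f = g := by
  funext x
  have h1 := S_fr hf x
  have h2 := S_fr hg x
  rw [show fr f = fr g from funext h, h2] at h1
  exact_mod_cast h1.symm

theorem int_add_sq {f g : V → ℝ} (hf : SP f) (hg : SP g) :
    ∫ x in cube, (f x + g x) ^ 2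
      = (∫ x in cube, f x ^ 2) + 2 * (∫ x in cube, f x * g x) + ∫ x in cube, g x ^ 2 := by
  have e : ∀ x, (f x + g x) ^ 2 = (f x ^ 2 + 2 * (f x * g x)) + g x ^ 2 := fun x => by ring
  simp_rw [e]
  have i1 : IntegrableOn (fun x => f x ^ 2) cube := integrableOn_cube (hf.cont.pow 2)
  have i2 : IntegrableOn (fun x => 2 * (f x * g x)) cube :=
    integrableOn_cube (continuous_const.mul (hf.cont.mul hg.cont))
  have i3 : IntegrableOn (fun x => g x ^ 2) cube := integrableOn_cube (hg.cont.pow 2)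
  have i12 : IntegrableOn (fun x => f x ^ 2 + 2 * (f x * g x)) cube := i1.add i2
  rw [integral_add i12 i3, integral_add i1 i2, integral_const_mul]

/-- functions without common frequencies are orthogonal -/
theorem orth {f g : V → ℝ} (hf : SP f) (hg : SP g) (h : ∀ k, fr f k = 0 ∨ fr g k = 0) :
    ∫ x in cube, f x * g x = 0 := by
  have h1 := int_add_sq hf hg
  rw [← n2_fr hf, ← n2_fr hg, ← n2_fr (hf.add hg), n2_sq, n2_sq, n2_sq] at h1
  have e : ∀ k, ‖fr (fun x => f x + g x) k‖ ^ 2 = ‖fr f k‖ ^ 2 + ‖fr g k‖ ^ 2 := by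
    intro k
    rw [fr_add hf hg]
    rcases h k with h | h
    · rw [h]; simp
    · rw [h]; simp
  simp_rw [e] at h1
  rw [Summable.tsum_add (summable_sq (rap_fr hf).summable) (summable_sq (rap_fr hg).summable)]
    at h1
  linarith

/-- The part of `f` with frequencies `|k j| ≤ n`. -/
noncomputable def lw (n : ℕ) (f : V → ℝ) (x : V) : ℝ := (∑ k ∈ bx n, fr f k * ee k x).re

theorem lw_ofReal (n : ℕ) (f : V → ℝ) (x : V) :
    ((lw n f x : ℝ) : ℂ) = ∑ k ∈ bx n, fr f k * ee k x := by
  unfold lw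
  have h : (starRingEnd ℂ) (∑ k ∈ bx n, fr f k * ee k x) = ∑ k ∈ bx n, fr f k * ee k x := by
    rw [map_sum]
    refine Finset.sum_nbij' (fun k => -k) (fun k => -k) ?_ ?_ ?_ ?_ ?_
    · intro k hk
      rw [mem_bx] at hk ⊢
      rwa [N_neg]
    · intro k hk
      rw [mem_bx] at hk ⊢
      rwa [N_neg]
    · intro k _; simp
    · intro k _; simp
    · intro k _
      rw [map_mul, ← fr_neg, ← ee_neg]
  exact (Complex.conj_eq_iff_re.1 h)

theorem sp_lw (n : ℕ) (f : V → ℝ) : SP (lw n f) where
  smooth := by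
    have h : ContDiff ℝ ∞ (fun x => ∑ k ∈ bx n, fr f k * ee k x) :=
      ContDiff.sum fun k _ => contDiff_const.mul (ee_contDiff k)
    exact Complex.reCLM.contDiff.comp h
  per := fun j x => by
    unfold lw
    congr 1
    refine Finset.sum_congr rfl fun k _ => ?_
    rw [ee_per k j x]

theorem fr_lw (n : ℕ) (f : V → ℝ) (k : K3) :
    fr (lw n f) k = if N k ≤ n then fr f k else 0 := by
  have e : fr (lw n f) k = ∑ m ∈ bx n, fr f m * (if m = k then 1 else 0) := by
    unfold fr fc
    have e1 : ∀ x, ee (-k) x * ((lw n f x : ℝ) : ℂ)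
        = ∑ m ∈ bx n, fr f m * ee (m - k) x := by
      intro x
      rw [lw_ofReal, Finset.mul_sum]
      refine Finset.sum_congr rfl fun m _ => ?_
      rw [sub_eq_add_neg, ee_add_left]
      ring
    simp_rw [e1]
    rw [integral_finsetSum]
    · refine Finset.sum_congr rfl fun m _ => ?_
      rw [integral_const_mul, integral_ee]
      congr 1
      by_cases hm : m = k
      · rw [if_pos hm, if_pos (sub_eq_zero.2 hm)]
      · rw [if_neg hm, if_neg (fun h => hm (sub_eq_zero.1 h))]
    · intro m _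
      exact integrableOn_cube (continuous_const.mul (ee_continuous _))
  rw [e]
  by_cases hk : N k ≤ n
  · rw [if_pos hk, Finset.sum_eq_single k]
    · simp
    · intro b _ hb
      rw [if_neg hb, mul_zero]
    · intro h
      exact absurd (mem_bx.2 hk) h
  · rw [if_neg hk]
    refine Finset.sum_eq_zero fun m hm => ?_
    rw [if_neg (fun h => hk (by rw [← h]; exact mem_bx.1 hm)), mul_zero]

theorem pd_lw (n : ℕ) {f : V → ℝ} (hf : SP f) (j : Fin 3) : pd j (lw n f) = lw n (pd j f) := by
  refine sp_ext ((sp_lw n f).pd j) (sp_lw n _) fun k => ?_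
  rw [fr_pd (sp_lw n f), fr_lw, D, fr_lw, fr_pd hf, D]
  split_ifs <;> simp

theorem d3_lw (n : ℕ) {f : V → ℝ} (hf : SP f) (i j k : Fin 3) :
    d3 i j k (lw n f) = lw n (d3 i j k f) := by
  unfold d3
  rw [pd_lw n hf, pd_lw n (hf.pd k), pd_lw n ((hf.pd k).pd j)]

/-- The part of `f` with frequencies outside of `|k j| ≤ n`. -/
noncomputable def hg (n : ℕ) (f : V → ℝ) (x : V) : ℝ := f x - lw n f x

theorem sp_hg (n : ℕ) {f : V → ℝ} (hf : SP f) : SP (hg n f) := hf.sub (sp_lw n f)

theorem fr_hg (n : ℕ) {f : V → ℝ} (hf : SP f) (k : K3) :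
    fr (hg n f) k = if N k ≤ n then 0 else fr f k := by
  have : fr (hg n f) k = fr f k - fr (lw n f) k := fr_sub hf (sp_lw n f) k
  rw [this, fr_lw]
  split_ifs <;> simp

theorem pd_hg (n : ℕ) {f : V → ℝ} (hf : SP f) (j : Fin 3) : pd j (hg n f) = hg n (pd j f) := by
  refine sp_ext ((sp_hg n hf).pd j) (sp_hg n (hf.pd j)) fun k => ?_
  rw [fr_pd (sp_hg n hf), fr_hg n (hf.pd j), D, fr_hg n hf, fr_pd hf, D]
  split_ifs <;> simp

theorem d3_hg (n : ℕ) {f : V → ℝ} (hf : SP f) (i j k : Fin 3) :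
    d3 i j k (hg n f) = hg n (d3 i j k f) := by
  unfold d3
  rw [pd_hg n hf, pd_hg n (hf.pd k), pd_hg n ((hf.pd k).pd j)]

theorem orth_lw_hg (n : ℕ) {f g : V → ℝ} (hf : SP f) (hg' : SP g) :
    ∫ x in cube, lw n f x * hg n g x = 0 :=
  orth (sp_lw n f) (sp_hg n hg') fun k => by
    rw [fr_lw, fr_hg n hg']
    split_ifs <;> simp

theorem int_lw_mul (n : ℕ) {f g : V → ℝ} (_hf : SP f) (hg' : SP g) :
    ∫ x in cube, lw n f x * g x = ∫ x in cube, lw n f x * lw n g x := by
  have e : ∀ x, lw n f x * g x = lw n f x * lw n g x + lw n f x * hg n g x := by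
    intro x; unfold hg; ring
  simp_rw [e]
  rw [integral_add, orth_lw_hg n _hf hg', add_zero]
  · exact integrableOn_cube ((sp_lw n f).cont.mul (sp_lw n g).cont)
  · exact integrableOn_cube ((sp_lw n f).cont.mul (sp_hg n hg').cont)

end Pool.Agent.L5helper76.SB
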