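import Pool.Agent.L5helper76.SB.Flux

/-!
The time derivative of the norm of the third derivatives of the high frequencies.
-/

open MeasureTheory Set Filter Topology
open scoped ContDiff

namespace Pool.Agent.L5helper76.SB

open H459R3.NS H459R3.EU

/-- Parseval for the low part -/
theorem int_lw_mul_eq (n : ℕ) {f h : V → ℝ} (hh : SP h) :
    ∫ x in cube, lw n f x * h x
      = ∑ k ∈ bx n, ((fr f k).re * (fr h k).re + (fr f k).im * (fr h k).im) := by
  have e0 : ((∫ x in cube, lw n f x * h x : ℝ) : ℂ)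
      = ∑ k ∈ bx n, fr f k * (starRingEnd ℂ) (fr h k) := by
    have e1 : ((∫ x in cube, lw n f x * h x : ℝ) : ℂ)
        = ∫ x in cube, ((lw n f x * h x : ℝ) : ℂ) := integral_ofReal.symm
    rw [e1]
    have e2 : ∀ x, ((lw n f x * h x : ℝ) : ℂ) = ∑ k ∈ bx n, fr f k * (ee k x * (h x : ℂ)) := by
      intro x
      rw [Complex.ofReal_mul, lw_ofReal, Finset.sum_mul]
      refine Finset.sum_congr rfl fun k _ => by ring
    simp_rw [e2]
    rw [integral_finsetSum]
    · refine Finset.sum_congr rfl fun k _ => ?_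
      rw [integral_const_mul, ← fr_neg]
      congr 1
      unfold fr fc
      rw [neg_neg]
    · intro k _
      exact integrableOn_cube (continuous_const.mul ((ee_continuous k).mul
        (contDiff_ofReal hh.smooth).continuous))
  have e3 := congrArg Complex.re e0
  rw [Complex.ofReal_re] at e3
  rw [e3, Complex.re_sum]
  refine Finset.sum_congr rfl fun k _ => ?_
  rw [Complex.mul_re, Complex.conj_re, Complex.conj_im]
  ring

theorem int_lw_sq (n : ℕ) {f : V → ℝ} (hf : SP f) :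
    ∫ x in cube, lw n f x ^ 2 = ∑ k ∈ bx n, ((fr f k).re ^ 2 + (fr f k).im ^ 2) := by
  have e : ∀ x, lw n f x ^ 2 = lw n f x * lw n f x := fun x => sq _
  simp_rw [e]
  rw [← int_lw_mul n hf hf, int_lw_mul_eq n hf]
  refine Finset.sum_congr rfl fun k _ => by ring

theorem int_hg_sq (n : ℕ) {f : V → ℝ} (hf : SP f) :
    ∫ x in cube, hg n f x ^ 2 = (∫ x in cube, f x ^ 2) - ∫ x in cube, lw n f x ^ 2 := by
  have h1 := int_add_sq (sp_lw n f) (sp_hg n hf)
  rw [orth_lw_hg n hf hf] at h1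
  have e : ∀ x, lw n f x + hg n f x = f x := fun x => by unfold hg; ring
  simp_rw [e] at h1
  linarith

section

variable {ν T : ℝ} {u : ℝ → V → V} {p : ℝ → V → ℝ}

theorem fr_re {f : V → ℝ} (hf : SP f) (k : K3) :
    (fr f k).re = ∫ x in cube, (ee (-k) x).re * f x := by
  have h : (fr f k).re = ∫ x in cube, (ee (-k) x * (f x : ℂ)).re := by
    unfold fr fc
    have := integral_re (μ := volume.restrict cube) (f := fun x => ee (-k) x * (f x : ℂ))
      (integrableOn_cube ((ee_continuous _).mul (contDiff_ofReal hf.smooth).continuous))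
    exact this.symm
  rw [h]
  congr 1
  funext x
  simp

theorem fr_im {f : V → ℝ} (hf : SP f) (k : K3) :
    (fr f k).im = ∫ x in cube, (ee (-k) x).im * f x := by
  have h : (fr f k).im = ∫ x in cube, (ee (-k) x * (f x : ℂ)).im := by
    unfold fr fc
    have := integral_im (μ := volume.restrict cube) (f := fun x => ee (-k) x * (f x : ℂ))
      (integrableOn_cube ((ee_continuous _).mul (contDiff_ofReal hf.smooth).continuous))
    exact this.symm
  rw [h]
  congr 1
  funext x
  simp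

theorem ee_re_smooth (k : K3) : ContDiff ℝ ∞ (fun x => (ee k x).re) :=
  Complex.reCLM.contDiff.comp (ee_contDiff k)

theorem ee_im_smooth (k : K3) : ContDiff ℝ ∞ (fun x => (ee k x).im) :=
  Complex.imCLM.contDiff.comp (ee_contDiff k)

/-- derivative of an integral against a fixed function -/
theorem int_mul_hasDerivAt {c : V → ℝ} (hc : ContDiff ℝ ∞ c) {g : ℝ → V → ℝ}
    (hg' : ContDiffOn ℝ ∞ (fun z : ℝ × V => g z.1 z.2) (Ico 0 T ×ˢ univ)) {t : ℝ}
    (ht : t ∈ Ioo 0 T) :
    HasDerivAt (fun s => ∫ x in cube, c x * g s x) (∫ x in cube, c x * dt g t x) t := by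
  have hG1 : ContDiffOn ℝ 1 (fun z : ℝ × V => g z.1 z.2) (Ioo 0 T ×ˢ univ) :=
    mono_Ioo (f := g) hg' (by norm_cast)
  have hF : ContDiffOn ℝ 1 (fun z : ℝ × V => c z.2 * g z.1 z.2) (Ioo 0 T ×ˢ univ) :=
    ((hc.of_le (by norm_cast)).comp contDiff_snd).contDiffOn.mul hG1
  have key := hasDerivAt_int (F := fun s x => c x * g s x) hF ht
  refine key.congr_deriv ?_
  congr 1
  funext x
  have h3 := hasDerivAt_slice (F := g) hG1 ht x
  have h4 : HasDerivAt (fun s => c x * g s x) _ t := h3.const_mul (c x)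
  rw [h4.deriv, ← H459R3.NS.dt_eq hg' ht x]

theorem int_lw_sq_hasDerivAt (n : ℕ) {g : ℝ → V → ℝ}
    (hg' : ContDiffOn ℝ ∞ (fun z : ℝ × V => g z.1 z.2) (Ico 0 T ×ˢ univ))
    (hsp : ∀ s ∈ Ico 0 T, SP (g s)) {t : ℝ} (ht : t ∈ Ioo 0 T) (hd : SP (dt g t)) :
    HasDerivAt (fun s => ∫ x in cube, lw n (g s) x ^ 2)
      (2 * ∫ x in cube, lw n (g t) x * dt g t x) t := by
  have h1 : HasDerivAt (fun s => ∑ k ∈ bx n, ((fr (g s) k).re ^ 2 + (fr (g s) k).im ^ 2))
      (∑ k ∈ bx n, (2 * (fr (g t) k).re * (fr (dt g t) k).re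
        + 2 * (fr (g t) k).im * (fr (dt g t) k).im)) t := by
    refine HasDerivAt.fun_sum fun k _ => ?_
    have r1 : HasDerivAt (fun s => (fr (g s) k).re) ((fr (dt g t) k).re) t := by
      have := int_mul_hasDerivAt (c := fun x => (ee (-k) x).re) (ee_re_smooth (-k)) hg' ht
      rw [← fr_re hd] at this
      refine this.congr_of_eventuallyEq ?_
      filter_upwards [Ioo_mem_nhds ht.1 ht.2] with s hs
      exact fr_re (hsp s ⟨hs.1.le, hs.2⟩) k
    have r2 : HasDerivAt (fun s => (fr (g s) k).im) ((fr (dt g t) k).im) t := by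
      have := int_mul_hasDerivAt (c := fun x => (ee (-k) x).im) (ee_im_smooth (-k)) hg' ht
      rw [← fr_im hd] at this
      refine this.congr_of_eventuallyEq ?_
      filter_upwards [Ioo_mem_nhds ht.1 ht.2] with s hs
      exact fr_im (hsp s ⟨hs.1.le, hs.2⟩) k
    have h3 := (r1.fun_pow 2).fun_add (r2.fun_pow 2)
    refine h3.congr_deriv ?_
    push_cast
    ring
  have e : (2 * ∫ x in cube, lw n (g t) x * dt g t x)
      = ∑ k ∈ bx n, (2 * (fr (g t) k).re * (fr (dt g t) k).re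
        + 2 * (fr (g t) k).im * (fr (dt g t) k).im) := by
    rw [int_lw_mul_eq n hd, Finset.mul_sum]
    refine Finset.sum_congr rfl fun k _ => by ring
  rw [e]
  refine h1.congr_of_eventuallyEq ?_
  filter_upwards [Ioo_mem_nhds ht.1 ht.2] with s hs
  exact int_lw_sq n (hsp s ⟨hs.1.le, hs.2⟩)

theorem int_sq_hasDerivAt {g : ℝ → V → ℝ}
    (hg' : ContDiffOn ℝ ∞ (fun z : ℝ × V => g z.1 z.2) (Ico 0 T ×ˢ univ)) {t : ℝ}
    (ht : t ∈ Ioo 0 T) :
    HasDerivAt (fun s => ∫ x in cube, g s x ^ 2) (2 * ∫ x in cube, g t x * dt g t x) t := by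
  have hG1 : ContDiffOn ℝ 1 (fun z : ℝ × V => g z.1 z.2) (Ioo 0 T ×ˢ univ) :=
    mono_Ioo (f := g) hg' (by norm_cast)
  have key := hasDerivAt_int (F := fun s x => g s x ^ 2) (hG1.pow 2) ht
  refine key.congr_deriv ?_
  rw [← integral_const_mul]
  congr 1
  funext x
  have h3 := hasDerivAt_slice (F := g) hG1 ht x
  have h4 : HasDerivAt (fun s => g s x ^ 2) _ t := h3.fun_pow 2
  rw [h4.deriv, ← H459R3.NS.dt_eq hg' ht x]
  push_cast
  ring

theorem int_hg_sq_hasDerivAt (n : ℕ) {g : ℝ → V → ℝ}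
    (hg' : ContDiffOn ℝ ∞ (fun z : ℝ × V => g z.1 z.2) (Ico 0 T ×ˢ univ))
    (hsp : ∀ s ∈ Ico 0 T, SP (g s)) {t : ℝ} (ht : t ∈ Ioo 0 T) (hd : SP (dt g t)) :
    HasDerivAt (fun s => ∫ x in cube, hg n (g s) x ^ 2)
      (2 * ∫ x in cube, dt g t x * hg n (g t) x) t := by
  have h1 := (int_sq_hasDerivAt hg' ht).fun_sub (int_lw_sq_hasDerivAt n hg' hsp ht hd)
  have hI : t ∈ Ico 0 T := ⟨ht.1.le, ht.2⟩
  have e : (2 * ∫ x in cube, dt g t x * hg n (g t) x)
      = 2 * (∫ x in cube, g t x * dt g t x) - 2 * ∫ x in cube, lw n (g t) x * dt g t x := by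
    rw [← mul_sub, ← integral_sub]
    · congr 2
      funext x
      unfold hg
      ring
    · exact integrableOn_cube ((hsp t hI).cont.mul hd.cont)
    · exact integrableOn_cube ((sp_lw n _).cont.mul hd.cont)
  rw [e]
  refine h1.congr_of_eventuallyEq ?_
  filter_upwards [Ioo_mem_nhds ht.1 ht.2] with s hs
  exact int_hg_sq n (hsp s ⟨hs.1.le, hs.2⟩)

/-- the third order norm of the high part -/
noncomputable def yy (n : ℕ) (v : V → V) : ℝ := dsq (fun x i => hi n (fun i y => v y i) i x)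

theorem yy_nonneg (n : ℕ) (v : V → V) : 0 ≤ yy n v := dsq_nonneg _

theorem YY_sq (n : ℕ) (v : V → V) : YY n (fun i y => v y i) ^ 2 = yy n v :=
  Real.sq_sqrt (dsq_nonneg _)

theorem yy_eq {v : V → V} (hv : ∀ i, SP (fun y => v y i)) (n : ℕ) :
    yy n v = ∑ l, ∑ i, ∑ j, ∑ k, ∫ x in cube, hg n (d3 i j k (fun y => v y l)) x ^ 2 := by
  unfold yy dsq
  refine Finset.sum_congr rfl fun l _ => Finset.sum_congr rfl fun i _ =>
    Finset.sum_congr rfl fun j _ => Finset.sum_congr rfl fun k _ => ?_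
  have : (fun y => hi n (fun i y => v y i) l y) = hg n (fun y => v y l) := rfl
  rw [this, d3_hg n (hv l)]

theorem Q3_lap_orth {v : Fin 3 → V → ℝ} (hv : ∀ i, SP (v i)) (n : ℕ) :
    Q3 (fun l => lap (v l)) (hi n v) = -fourth (hi n v) := by
  have e : (fun l => lap (v l)) = fun l x => lap (lo n v l) x + lap (hi n v l) x := by
    funext l x
    have h : ∀ m, pd m (pd m (v l)) x = pd m (pd m (lo n v l)) x + pd m (pd m (hi n v l)) x := by
      intro m
      have e1 : pd m (hi n v l) = fun x => pd m (v l) x - pd m (lo n v l) x :=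
        pd_sub (hv l) (sp_lo n v l) m
      have e2 : pd m (pd m (hi n v l)) x
          = pd m (pd m (v l)) x - pd m (pd m (lo n v l)) x := by
        rw [e1]
        exact congrFun (pd_sub ((hv l).pd m) ((sp_lo n v l).pd m) m) x
      rw [e2]; ring
    unfold lap
    simp_rw [h]
    rw [Finset.sum_add_distrib]
  rw [e, Q3_add_left (fun l => (sp_lo n v l).lap) (fun l => (sp_hi hv n l).lap) (sp_hi hv n),
    Q3_lap (sp_hi hv n)]
  have : Q3 (fun l => lap (lo n v l)) (hi n v) = 0 := by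
    unfold Q3
    refine Finset.sum_eq_zero fun l _ => Finset.sum_eq_zero fun i _ =>
      Finset.sum_eq_zero fun j _ => Finset.sum_eq_zero fun k _ => ?_
    refine orth (sp_d3 (sp_lo n v l).lap i j k) (sp_d3 (sp_hi hv n l) i j k) fun m => ?_
    by_cases hm : N m ≤ n
    · right
      have : d3 i j k (hi n v l) = hg n (d3 i j k (v l)) := d3_hg n (hv l) i j k
      rw [this, fr_hg n (sp_d3 (hv l) i j k), if_pos hm]
    · left
      have h1 : ∀ m', n < N m' → fr (lap (lo n v l)) m' = 0 := by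
        intro m' hm'
        have : lap (lo n v l) = fun x => ∑ q, pd q (pd q (lo n v l)) x := rfl
        rw [this, fr_sum fun q _ => ((sp_lo n v l).pd q).pd q]
        refine Finset.sum_eq_zero fun q _ => ?_
        exact pd_supp ((sp_lo n v l).pd q)
          (pd_supp (sp_lo n v l) (lw_supp n (v l)) q) q m' hm'
      exact d3_supp (sp_lo n v l).lap h1 i j k m (by omega)
  rw [this, zero_add]

/-- time derivative of the third order norm of the high part -/
theorem yy_hasDerivAt (h : IsSol ν T u p) (n : ℕ) {t : ℝ} (ht : t ∈ Ioo 0 T) :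
    HasDerivAt (fun s => yy n (u s))
      (-(2 * ν * fourth (hi n fun i y => u t y i)) - 2 * Q3 (cv (fun i y => u t y i)
        (fun i y => u t y i)) (hi n fun i y => u t y i)) t := by
  have hI : t ∈ Ico 0 T := ⟨ht.1.le, ht.2⟩
  set v : Fin 3 → V → ℝ := fun i y => u t y i with hv
  have hsp : ∀ i, SP (v i) := fun i => h.sp hI i
  have hdiv : ∀ x, ∑ i, pd i (v i) x = 0 := h.divfree t hI
  set w : Fin 3 → V → ℝ := fun i => dt (fun s y => u s y i) t with hw
  have hwsp : ∀ i, SP (w i) := fun i => h.sp_dt ht i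
  have h1 : ∀ l i j k, HasDerivAt
      (fun s => ∫ x in cube, hg n (d3 i j k (fun y => u s y l)) x ^ 2)
      (2 * ∫ x in cube, d3 i j k (w l) x * d3 i j k (hi n v l) x) t := by
    intro l i j k
    have hG : ContDiffOn ℝ ∞ (fun z : ℝ × V => d3 i j k (fun y => u z.1 y l) z.2)
        (Ico 0 T ×ˢ univ) := contDiffOn_d3 (f := fun s y => u s y l) (h.smooth_c l) i j k
    have e : dt (fun s => d3 i j k (fun y => u s y l)) t = d3 i j k (w l) := by
      funext x
      exact dt_d3 (f := fun s y => u s y l) (h.smooth_c l) ht i j k x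
    have key := int_hg_sq_hasDerivAt n (g := fun s => d3 i j k (fun y => u s y l)) hG
      (fun s hs => sp_d3 (h.sp hs l) i j k) ht (by rw [e]; exact sp_d3 (hwsp l) i j k)
    rw [e] at key
    have e2 : d3 i j k (hi n v l) = hg n (d3 i j k (v l)) := d3_hg n (hsp l) i j k
    rw [e2]
    exact key
  have h2 : HasDerivAt (fun s => ∑ l, ∑ i, ∑ j, ∑ k,
      ∫ x in cube, hg n (d3 i j k (fun y => u s y l)) x ^ 2)
      (∑ l, ∑ i, ∑ j, ∑ k, 2 * ∫ x in cube, d3 i j k (w l) x * d3 i j k (hi n v l) x) t :=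
    HasDerivAt.fun_sum fun l _ => HasDerivAt.fun_sum fun i _ => HasDerivAt.fun_sum fun j _ =>
      HasDerivAt.fun_sum fun k _ => h1 l i j k
  have h3 : HasDerivAt (fun s => yy n (u s))
      (∑ l, ∑ i, ∑ j, ∑ k, 2 * ∫ x in cube, d3 i j k (w l) x * d3 i j k (hi n v l) x) t := by
    refine h2.congr_of_eventuallyEq ?_
    filter_upwards [Ioo_mem_nhds ht.1 ht.2] with s hs
    exact yy_eq (fun i => h.sp ⟨hs.1.le, hs.2⟩ i) n
  refine h3.congr_deriv ?_
  have e0 : ∑ l, ∑ i, ∑ j, ∑ k, 2 * ∫ x in cube, d3 i j k (w l) x * d3 i j k (hi n v l) x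
      = 2 * Q3 w (hi n v) := by
    unfold Q3
    simp_rw [Finset.mul_sum]
  rw [e0]
  have e1 : w = fun l x => (ν * lap (v l) x + (-1) * cv v v l x) + (-1) * pd l (p t) x := by
    funext l x
    have := h.dt_eq ht l x
    simp only [hw]
    rw [this]
    unfold H459R3.NS.conv cv
    ring
  have s1 : ∀ l, SP (fun x => ν * lap (v l) x) := fun l => sp_smul (hsp l).lap ν
  have s2 : ∀ l, SP (fun x => (-1) * cv v v l x) := fun l => sp_smul (sp_cv hsp hsp l) _
  have s3 : ∀ l, SP (fun x => (-1) * pd l (p t) x) := fun l => sp_smul ((h.sp_p hI).pd l) _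
  rw [e1, Q3_add_left (fun l => (s1 l).add (s2 l)) s3 (sp_hi hsp n),
    Q3_add_left s1 s2 (sp_hi hsp n),
    Q3_smul_left (F := fun l => lap (v l)) (fun l => (hsp l).lap),
    Q3_smul_left (F := fun l => cv v v l) (fun l => sp_cv hsp hsp l),
    Q3_smul_left (F := fun l => pd l (p t)) (fun l => (h.sp_p hI).pd l),
    Q3_press (sp_hi hsp n) (div_hi hsp hdiv n) (h.sp_p hI), Q3_lap_orth hsp n]
  ring

theorem yy_continuousOn (h : IsSol ν T u p) (n : ℕ) :
    ContinuousOn (fun s => yy n (u s)) (Ico 0 T) := by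
  have hc : ∀ {g : ℝ → V → ℝ},
      ContDiffOn ℝ ∞ (fun z : ℝ × V => g z.1 z.2) (Ico 0 T ×ˢ univ) →
      (∀ s ∈ Ico 0 T, SP (g s)) →
      ContinuousOn (fun s => ∫ x in cube, hg n (g s) x ^ 2) (Ico 0 T) := by
    intro g hg' hsp
    have c1 : ContinuousOn (fun s => ∫ x in cube, g s x ^ 2) (Ico 0 T) :=
      continuousOn_int (F := fun s x => g s x ^ 2) (hg'.continuousOn.pow 2)
    have c2 : ContinuousOn (fun s => ∑ k ∈ bx n, ((∫ x in cube, (ee (-k) x).re * g s x) ^ 2
        + (∫ x in cube, (ee (-k) x).im * g s x) ^ 2)) (Ico 0 T) := by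
      refine continuousOn_finsetSum _ fun k _ => ?_
      refine ContinuousOn.add (ContinuousOn.pow ?_ 2) (ContinuousOn.pow ?_ 2)
      · exact continuousOn_int (F := fun s x => (ee (-k) x).re * g s x)
          (((ee_re_smooth (-k)).continuous.comp continuous_snd).continuousOn.mul
            hg'.continuousOn)
      · exact continuousOn_int (F := fun s x => (ee (-k) x).im * g s x)
          (((ee_im_smooth (-k)).continuous.comp continuous_snd).continuousOn.mul
            hg'.continuousOn)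
    refine (c1.sub c2).congr fun s hs => ?_
    rw [int_hg_sq n (hsp s hs), int_lw_sq n (hsp s hs)]
    congr 1
    refine Finset.sum_congr rfl fun k _ => ?_
    rw [fr_re (hsp s hs), fr_im (hsp s hs)]
  have h2 : ContinuousOn (fun s => ∑ l, ∑ i, ∑ j, ∑ k,
      ∫ x in cube, hg n (d3 i j k (fun y => u s y l)) x ^ 2) (Ico 0 T) := by
    refine continuousOn_finsetSum _ fun l _ => continuousOn_finsetSum _ fun i _ =>
      continuousOn_finsetSum _ fun j _ => continuousOn_finsetSum _ fun k _ => ?_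
    exact hc (g := fun s => d3 i j k (fun y => u s y l))
      (contDiffOn_d3 (f := fun s y => u s y l) (h.smooth_c l) i j k)
      (fun s hs => sp_d3 (h.sp hs l) i j k)
  exact h2.congr fun s hs => yy_eq (fun i => h.sp hs i) n

/-- the energy does not increase -/
theorem energy_le (h : IsSol ν T u p) (hν : 0 ≤ ν) {t : ℝ} (ht : t ∈ Ico 0 T) :
    energy (u t) ≤ energy (u 0) := by
  have hE : ContinuousOn (fun s => energy (u s)) (Icc 0 t) :=
    h.energy_continuousOn.mono fun s hs => ⟨hs.1, hs.2.trans_lt ht.2⟩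
  have hanti : AntitoneOn (fun s => energy (u s)) (Icc 0 t) := by
    refine antitoneOn_of_deriv_nonpos (convex_Icc 0 t) hE ?_ ?_
    · rw [interior_Icc]
      intro s hs
      exact (h.energy_hasDerivAt ⟨hs.1, hs.2.trans ht.2⟩).differentiableAt.differentiableWithinAt
    · rw [interior_Icc]
      intro s hs
      rw [(h.energy_hasDerivAt ⟨hs.1, hs.2.trans ht.2⟩).deriv]
      have : 0 ≤ enstrophy (u s) := by
        unfold enstrophy
        exact Finset.sum_nonneg fun _ _ => Finset.sum_nonneg fun _ _ =>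
          integral_nonneg fun _ => sq_nonneg _
      have := mul_nonneg (mul_nonneg zero_le_two hν) this
      linarith
  exact hanti ⟨le_rfl, ht.1⟩ ⟨ht.1, le_rfl⟩ ht.1

theorem nrm_le_of_energy (h : IsSol ν T u p) (hν : 0 ≤ ν) {E : ℝ} (hE0 : 0 ≤ E)
    (hE : energy (u 0) ≤ E ^ 2) {t : ℝ} (ht : t ∈ Ico 0 T) (i : Fin 3) :
    nrm (fun y => u t y i) ≤ E := by
  unfold nrm
  rw [Real.sqrt_le_left hE0]
  refine le_trans ?_ ((energy_le h hν ht).trans hE)
  unfold energy
  exact Finset.single_le_sum (f := fun i => ∫ x in cube, u t x i ^ 2)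
    (fun _ _ => integral_nonneg fun _ => sq_nonneg _) (Finset.mem_univ i)

/-- The differential inequality for the high frequencies. -/
theorem yy_deriv_le (h : IsSol ν T u p) (hν : 0 ≤ ν) {E : ℝ} (hE0 : 0 ≤ E)
    (hE : energy (u 0) ≤ E ^ 2) (n : ℕ) {t : ℝ} (ht : t ∈ Ioo 0 T) :
    ∃ D, HasDerivAt (fun s => yy n (u s)) D t ∧
      D ≤ fl n (fun i y => u t y i) + 10 ^ 8 * (E * G n * yy n (u t)
        + Real.sqrt (yy n (u t)) * yy n (u t)) := by
  refine ⟨_, yy_hasDerivAt h n ht, ?_⟩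
  have hI : t ∈ Ico 0 T := ⟨ht.1.le, ht.2⟩
  have k := key (n := n) (E := E) (fun i => h.sp hI i) (h.divfree t hI)
    (fun i => nrm_le_of_energy h hν hE0 hE hI i)
  have f0 : 0 ≤ 2 * ν * fourth (hi n fun i y => u t y i) :=
    mul_nonneg (by positivity) (fourth_nonneg _)
  have e1 : YY n (fun i y => u t y i) ^ 3 = Real.sqrt (yy n (u t)) * yy n (u t) := by
    have : YY n (fun i y => u t y i) = Real.sqrt (yy n (u t)) := rfl
    rw [this, pow_succ, Real.sq_sqrt (yy_nonneg _ _)]
    ring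
  rw [YY_sq, e1] at k
  linarith

end

end Pool.Agent.L5helper76.SB
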